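import Mathlib

/-! Definitions for problem MP_89a37c_co: bipartite quivers, affine-finite quivers, T-systems,
recurrence polynomials and their specialisations. -/

namespace Pool.Agent.Lib_MP_89a37c

open Polynomial

/-- A connected bipartite quiver on the vertex set `V` without loops, directed 2-cycles and
multiple arrows: `arr u v` means that there is an arrow from `u` to `v`. -/
structure BQuiver (V : Type) where
  arr : V → V → Prop
  eps : V → ℕ
  eps_le : ∀ v, eps v ≤ 1
  bip : ∀ u v, arr u v → eps u ≠ eps v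
  no_two_cycle : ∀ u v, arr u v → ¬ arr v u
  connected : (SimpleGraph.fromRel arr).Connected

/-- The undirected graph formed by the arrows that leave a vertex `u` with `eps u = e`. The
graphs Gamma and Delta of the problem are those with `e = 0` and `e = 1`. -/
def BQuiver.part {V : Type} (Q : BQuiver V) (e : ℕ) : SimpleGraph V :=
  SimpleGraph.fromRel fun u v => Q.arr u v ∧ Q.eps u = e

/-- The simple graph on `Fin n` whose edges are the pairs of a list of pairs. -/
def listGraph (n : ℕ) (E : List (ℕ × ℕ)) : SimpleGraph (Fin n) :=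
  SimpleGraph.fromRel fun u v => (u.val, v.val) ∈ E

/-- The edges `(s, s+1), (s+1, s+2), ..., (s+m-1, s+m)` of a path with `m` edges. -/
def pathEdges (s m : ℕ) : List (ℕ × ℕ) := (List.range m).map fun j => (s + j, s + j + 1)

/-- The finite ADE Dynkin diagrams, on `Fin n`. -/
inductive FiniteADE : (n : ℕ) → SimpleGraph (Fin n) → Prop
  | A (n : ℕ) (h : 1 ≤ n) : FiniteADE n (listGraph n (pathEdges 0 (n - 1)))
  | D (n : ℕ) (h : 4 ≤ n) : FiniteADE n (listGraph n ((n - 3, n - 1) :: pathEdges 0 (n - 2)))
  | E6 : FiniteADE 6 (listGraph 6 ((2, 5) :: pathEdges 0 4))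
  | E7 : FiniteADE 7 (listGraph 7 ((2, 6) :: pathEdges 0 5))
  | E8 : FiniteADE 8 (listGraph 8 ((2, 7) :: pathEdges 0 6))

/-- The affine ADE Dynkin diagrams that are simple graphs, on `Fin n` (so the subscript of the
usual name is `n - 1`). -/
inductive AffineADE : (n : ℕ) → SimpleGraph (Fin n) → Prop
  | A (n : ℕ) (h : 3 ≤ n) : AffineADE n (listGraph n ((n - 1, 0) :: pathEdges 0 (n - 1)))
  | D (n : ℕ) (h : 5 ≤ n) :
      AffineADE n (listGraph n ((0, 2) :: (n - 3, n - 1) :: pathEdges 1 (n - 3)))
  | E6 : AffineADE 7 (listGraph 7 ((2, 5) :: (5, 6) :: pathEdges 0 4))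
  | E7 : AffineADE 8 (listGraph 8 ((3, 7) :: pathEdges 0 6))
  | E8 : AffineADE 9 (listGraph 9 ((2, 8) :: pathEdges 0 7))

/-- Every connected component of `G` is isomorphic to a graph of the class `S`. -/
def ComponentsIn {V : Type} (G : SimpleGraph V) (S : (n : ℕ) → SimpleGraph (Fin n) → Prop) :
    Prop :=
  ∀ c : G.ConnectedComponent, ∃ (n : ℕ) (H : SimpleGraph (Fin n)), S n H ∧
    Nonempty (G.induce c.supp ≃g H)

open Classical in
/-- Affine-finite quivers. -/
def BQuiver.AffineFinite {V : Type} [Fintype V] (Q : BQuiver V) : Prop :=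
  Commute ((Q.part 0).adjMatrix ℤ) ((Q.part 1).adjMatrix ℤ) ∧
    ((ComponentsIn (Q.part 0) AffineADE ∧ ComponentsIn (Q.part 1) FiniteADE) ∨
      (ComponentsIn (Q.part 0) FiniteADE ∧ ComponentsIn (Q.part 1) AffineADE))

/-- The field `ℚ(x)` of rational functions in the variables `x_v`. -/
abbrev RatFun (V : Type) : Type := FractionRing (MvPolynomial V ℚ)

open Classical in
/-- `T` is the T-system of `Q`; only the values `T v t` with `t + eps v` even matter. -/
structure IsTSystem {V : Type} [Fintype V] (Q : BQuiver V) (T : V → ℤ → RatFun V) : Prop where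
  init : ∀ v, T v (Q.eps v) = algebraMap (MvPolynomial V ℚ) (RatFun V) (MvPolynomial.X v)
  step : ∀ v (t : ℤ), Even (t + 1 + Q.eps v) →
    T v (t + 1) * T v (t - 1)
      = (∏ u with Q.arr u v, T u t) + ∏ w with Q.arr v w, T w t

/-- The data `i`, `N`, `J` give a recurrence of the form of the problem at the vertex `v`. The
condition `defined` says that each value of `T v` that occurs with a nonzero coefficient is one
of those the T-system defines. -/
structure IsRecurrence {V : Type} (Q : BQuiver V) (T : V → ℤ → RatFun V) (v : V)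
    (i N : ℕ) (J : ℕ → RatFun V) : Prop where
  pos : 1 ≤ i
  first : J 0 = 1
  last : J (N + 1) = 1
  defined : ∀ k ≤ N + 1, J k ≠ 0 → Even (i * (N + 1 - k))
  rel : ∀ t : ℤ, Even (t + Q.eps v) →
    ∑ k ∈ Finset.range (N + 2), (-1) ^ k * J k * T v (t + (i * (N + 1 - k) : ℕ)) = 0

/-- The characteristic polynomial of the recurrence `i`, `N`, `J`. -/
noncomputable def charPol {V : Type} (i N : ℕ) (J : ℕ → RatFun V) : (RatFun V)[X] :=
  ∑ k ∈ Finset.range (N + 2), C ((-1) ^ k * J k) * X ^ (i * (N + 1 - k))

/-- The recurrence `i`, `N`, `J` at `v` is minimal: its characteristic polynomial divides those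
of all such recurrences (so it is their greatest common divisor). -/
structure IsMinimalRecurrence {V : Type} (Q : BQuiver V) (T : V → ℤ → RatFun V) (v : V)
    (i N : ℕ) (J : ℕ → RatFun V) : Prop extends IsRecurrence Q T v i N J where
  minimal : ∀ (i' N' : ℕ) (J' : ℕ → RatFun V), IsRecurrence Q T v i' N' J' →
    charPol i N J ∣ charPol i' N' J'

/-- The rational function `f` is defined at the real point `x`, with the value `y`. -/
def HasValue {V : Type} (f : RatFun V) (x : V → ℝ) (y : ℝ) : Prop :=
  ∃ p q : MvPolynomial V ℚ, MvPolynomial.aeval x q ≠ 0 ∧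
    f * algebraMap (MvPolynomial V ℚ) (RatFun V) q = algebraMap (MvPolynomial V ℚ) (RatFun V) p ∧
    y * MvPolynomial.aeval x q = MvPolynomial.aeval x p

/-- The complex number `z` is a root of the specialised recurrence polynomial with
coefficients `y`. -/
def IsRoot (N : ℕ) (y : ℕ → ℝ) (z : ℂ) : Prop :=
  ∑ k ∈ Finset.range (N + 2), (-1) ^ k * (y k : ℂ) * z ^ (N + 1 - k) = 0

/-- The assertion of the question: for every affine-finite quiver, every vertex at which a
minimal recurrence exists and every positive real point at which its coefficients are defined,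
all roots of the specialised recurrence polynomial are positive real numbers. -/
def AllRootsPositive : Prop :=
  ∀ (V : Type) [Fintype V] (Q : BQuiver V), Q.AffineFinite →
    ∀ T : V → ℤ → RatFun V, IsTSystem Q T →
    ∀ (v : V) (i N : ℕ) (J : ℕ → RatFun V), IsMinimalRecurrence Q T v i N J →
    ∀ x : V → ℝ, (∀ u, 0 < x u) →
    ∀ y : ℕ → ℝ, (∀ k ≤ N + 1, HasValue (J k) x (y k)) →
    ∀ z : ℂ, IsRoot N y z → ∃ r : ℝ, 0 < r ∧ z = r

end Pool.Agent.Lib_MP_89a37c
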