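import Mathlib

/-! Identities in a field for the T-system of the affine quiver of type E6 (three arms of
length two): a, b, d are the ends, C the centre, A, B, D the middle vertices. -/

namespace Pool.Agent.Lib_MP_89a37c

variable {F : Type*} [Field F]

/-- The relations of the T-system, with all values nonzero. -/
structure Sys (a b d C A B D : ℤ → F) : Prop where
  ha : ∀ k, a k ≠ 0
  hb : ∀ k, b k ≠ 0
  hd : ∀ k, d k ≠ 0
  hC : ∀ k, C k ≠ 0
  hA : ∀ k, A k ≠ 0
  hB : ∀ k, B k ≠ 0
  hD : ∀ k, D k ≠ 0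
  e1a : ∀ k, a k * a (k + 1) = 1 + A k
  e1b : ∀ k, b k * b (k + 1) = 1 + B k
  e1d : ∀ k, d k * d (k + 1) = 1 + D k
  e2 : ∀ k, C k * C (k + 1) = 1 + A k * B k * D k
  e3a : ∀ k, A k * A (k + 1) = 1 + a (k + 1) * C (k + 1)
  e3b : ∀ k, B k * B (k + 1) = 1 + b (k + 1) * C (k + 1)
  e3d : ∀ k, D k * D (k + 1) = 1 + d (k + 1) * C (k + 1)

namespace Sys

variable {a b d C A B D : ℤ → F}

theorem swap (H : Sys a b d C A B D) : Sys b a d C B A D where
  ha := H.hb
  hb := H.ha
  hd := H.hd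
  hC := H.hC
  hA := H.hB
  hB := H.hA
  hD := H.hD
  e1a := H.e1b
  e1b := H.e1a
  e1d := H.e1d
  e2 := fun k => by rw [H.e2 k]; ring
  e3a := H.e3b
  e3b := H.e3a
  e3d := H.e3d

theorem rot (H : Sys a b d C A B D) : Sys b d a C B D A where
  ha := H.hb
  hb := H.hd
  hd := H.ha
  hC := H.hC
  hA := H.hB
  hB := H.hD
  hD := H.hA
  e1a := H.e1b
  e1b := H.e1d
  e1d := H.e1a
  e2 := fun k => by rw [H.e2 k]; ring
  e3a := H.e3b
  e3b := H.e3d
  e3d := H.e3a

theorem refl (H : Sys a b d C A B D) :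
    Sys (fun k => a (-k)) (fun k => b (-k)) (fun k => d (-k)) (fun k => C (-k))
      (fun k => A (-k - 1)) (fun k => B (-k - 1)) (fun k => D (-k - 1)) where
  ha := fun k => H.ha _
  hb := fun k => H.hb _
  hd := fun k => H.hd _
  hC := fun k => H.hC _
  hA := fun k => H.hA _
  hB := fun k => H.hB _
  hD := fun k => H.hD _
  e1a := fun k => by
    have h := H.e1a (-k - 1)
    rw [show -k - 1 + 1 = -k by ring] at h
    rw [show -(k + 1) = -k - 1 by ring, mul_comm]; exact h
  e1b := fun k => by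
    have h := H.e1b (-k - 1)
    rw [show -k - 1 + 1 = -k by ring] at h
    rw [show -(k + 1) = -k - 1 by ring, mul_comm]; exact h
  e1d := fun k => by
    have h := H.e1d (-k - 1)
    rw [show -k - 1 + 1 = -k by ring] at h
    rw [show -(k + 1) = -k - 1 by ring, mul_comm]; exact h
  e2 := fun k => by
    have h := H.e2 (-k - 1)
    rw [show -k - 1 + 1 = -k by ring] at h
    rw [show -(k + 1) = -k - 1 by ring, mul_comm]; exact h
  e3a := fun k => by
    have h := H.e3a (-k - 1 - 1)
    rw [show -k - 1 - 1 + 1 = -k - 1 by ring] at h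
    rw [show -(k + 1) = -k - 1 by ring, mul_comm]; exact h
  e3b := fun k => by
    have h := H.e3b (-k - 1 - 1)
    rw [show -k - 1 - 1 + 1 = -k - 1 by ring] at h
    rw [show -(k + 1) = -k - 1 by ring, mul_comm]; exact h
  e3d := fun k => by
    have h := H.e3d (-k - 1 - 1)
    rw [show -k - 1 - 1 + 1 = -k - 1 by ring] at h
    rw [show -(k + 1) = -k - 1 by ring, mul_comm]; exact h

/-- D1 : `A k * a (k+2) = C (k+1) + a k`. -/
theorem d1 (H : Sys a b d C A B D) (k : ℤ) : A k * a (k + 2) = C (k + 1) + a k := by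
  apply mul_left_cancel₀ (H.ha (k + 1))
  have h1 := H.e1a k
  have h2 := H.e1a (k + 1)
  have h3 := H.e3a k
  rw [show k + 1 + 1 = k + 2 by ring] at h2
  linear_combination A k * h2 + h3 - h1

/-- reflected D1 : `A k * a (k-1) = C k + a (k+1)`. -/
theorem d1r (H : Sys a b d C A B D) (k : ℤ) : A k * a (k - 1) = C k + a (k + 1) := by
  have h := H.refl.d1 (-k - 1)
  rw [show -(-k - 1) - 1 = k by ring, show -(-k - 1 + 2) = k - 1 by ring,
    show -(-k - 1 + 1) = k by ring, show -(-k - 1) = k + 1 by ring] at h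
  exact h

theorem d2a (H : Sys a b d C A B D) (k : ℤ) :
    C (k + 1) * A (k + 2) = B (k + 1) * D (k + 1) * a (k + 2) + a k := by
  apply mul_left_cancel₀ (H.hA (k + 1))
  have h1 := H.e3a (k + 1)
  have h2 := H.e2 (k + 1)
  have h3 := H.d1r (k + 1)
  rw [show k + 1 + 1 = k + 2 by ring] at h1 h2 h3
  rw [show k + 1 - 1 = k by ring] at h3
  linear_combination C (k + 1) * h1 + a (k + 2) * h2 - h3

/-- D2 -/
theorem d2 (H : Sys a b d C A B D) (k : ℤ) :
    C (k + 1) * a (k + 3) = B (k + 1) * D (k + 1) + A k := by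
  apply mul_left_cancel₀ (H.ha (k + 2))
  have h1 := H.e1a (k + 2)
  have h2 := H.d2a k
  have h3 := H.d1 k
  rw [show k + 2 + 1 = k + 3 by ring] at h1
  linear_combination C (k + 1) * h1 + h2 - h3

theorem d2r (H : Sys a b d C A B D) (k : ℤ) :
    C (k + 1) * a (k - 1) = B k * D k + A (k + 1) := by
  have h := H.refl.d2 (-k - 2)
  rw [show -(-k - 2 + 1) - 1 = k by ring, show -(-k - 2 + 3) = k - 1 by ring,
    show -(-k - 2 + 1) = k + 1 by ring, show -(-k - 2) - 1 = k + 1 by ring] at h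
  exact h

theorem star (H : Sys a b d C A B D) (k : ℤ) :
    a (k - 1) * B (k + 1) * D (k + 1) =
      C (k + 2) + b (k + 1) + d (k + 1) + b (k + 1) * d (k + 1) * C (k + 1) := by
  apply mul_left_cancel₀ (H.hC (k + 1))
  have h1 := H.d2r k
  have h2 := H.e2 (k + 1)
  have h3 := H.e3b k
  have h4 := H.e3d k
  rw [show k + 1 + 1 = k + 2 by ring] at h2
  linear_combination (B (k + 1) * D (k + 1)) * h1 - h2 + (D k * D (k + 1)) * h3
    + (1 + b (k + 1) * C (k + 1)) * h4

theorem d3a (H : Sys a b d C A B D) (k : ℤ) :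
    a (k + 3) = C (k + 1) * b (k - 1) * d (k - 1)
      - A k * (b (k + 1) + d (k + 1) + C k) := by
  apply mul_left_cancel₀ (H.hC (k + 1))
  have h1 := H.d2 k
  have h2 := H.swap.d2r k
  have h3 := H.rot.rot.d2r k
  have h4 := H.e2 k
  have h5 := H.swap.d1r k
  have h6 := H.rot.rot.d1r k
  -- h2 : C (k+1) * b (k-1) = A k * D k + B (k+1)
  -- h3 : C (k+1) * d (k-1) = A k * B k + D (k+1)
  linear_combination h1 - D (k + 1) * h2 - (C (k + 1) * b (k - 1) - A k * D k) * h3
    - (C (k + 1) * A k) * h5 - (C (k + 1) * A k) * h6 - A k * h4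

theorem d3 (H : Sys a b d C A B D) (k : ℤ) :
    C k * a (k + 3) = b (k - 1) * d (k - 1) + A k * b (k + 1) * d (k + 1) := by
  have h1 := H.d3a k
  have h4 := H.e2 k
  have h5 := H.swap.d1r k
  have h6 := H.rot.rot.d1r k
  -- h5 : B k * b (k-1) = C k + b (k+1);  h6 : D k * d (k-1) = C k + d (k+1)
  linear_combination C k * h1 + (b (k - 1) * d (k - 1)) * h4
    + (A k * D k * d (k - 1)) * h5 + (A k * (C k + b (k + 1))) * h6

theorem d3r (H : Sys a b d C A B D) (k : ℤ) :
    C k * a (k - 3) = b (k + 1) * d (k + 1) + A (k - 1) * b (k - 1) * d (k - 1) := by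
  have h := H.refl.d3 (-k)
  rw [show -(-k) = k by ring, show -(-k + 3) = k - 3 by ring,
    show -(-k - 1) = k + 1 by ring, show -(-k + 1) = k - 1 by ring] at h
  exact h

theorem star2 (H : Sys a b d C A B D) (k : ℤ) :
    a (k - 3) = A (k - 1) * a (k + 3) - a k * b (k + 1) * d (k + 1) := by
  apply mul_left_cancel₀ (H.hC k)
  have h1 := H.d3r k
  have h2 := H.d3 k
  have h3 := H.e3a (k - 1)
  rw [show k - 1 + 1 = k by ring] at h3
  linear_combination h1 - A (k - 1) * h2 - (b (k + 1) * d (k + 1)) * h3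

theorem l1 (H : Sys a b d C A B D) (k : ℤ) :
    C (k + 1) * (a (k + 3) + a (k - 3)) =
      a k * (C (k + 2) + C k + a (k + 1) + b (k + 1) + d (k + 1)) := by
  have h1 := H.d2 k
  have h2 := H.star2 k
  have h3 := H.star k
  have h4 := H.e1a (k - 1)
  have h5 := H.d1r k
  rw [show k - 1 + 1 = k by ring] at h4
  linear_combination (1 + A (k - 1)) * h1 + C (k + 1) * h2
    + a k * h3 + a k * h5 - (B (k + 1) * D (k + 1) + A k) * h4

/-- The conserved quantity of period two. -/
def G (a b d C : ℤ → F) (k : ℤ) : F := (C (k + 1) + C (k - 1) + a k + b k + d k) / C k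

theorem G_mul (H : Sys a b d C A B D) (k : ℤ) :
    G a b d C k * C k = C (k + 1) + C (k - 1) + a k + b k + d k := by
  unfold G
  exact div_mul_cancel₀ _ (H.hC k)

theorem G_swap (k : ℤ) : G b a d C k = G a b d C k := by
  unfold G
  congr 1
  ring

theorem G_rot (k : ℤ) : G b d a C k = G a b d C k := by
  unfold G
  congr 1
  ring

theorem G_refl (k : ℤ) :
    G (fun k => a (-k)) (fun k => b (-k)) (fun k => d (-k)) (fun k => C (-k)) k
      = G a b d C (-k) := by
  unfold G
  beta_reduce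
  rw [show -(k + 1) = -k - 1 by ring, show -(k - 1) = -k + 1 by ring]
  congr 1
  ring

theorem l2 (H : Sys a b d C A B D) (k : ℤ) :
    a (k + 3) + a (k - 3) = G a b d C (k + 1) * a k := by
  apply mul_left_cancel₀ (H.hC (k + 1))
  have h1 := H.l1 k
  have h2 := H.G_mul (k + 1)
  rw [show k + 1 + 1 = k + 2 by ring, show k + 1 - 1 = k by ring] at h2
  linear_combination h1 - a k * h2

theorem l2r (H : Sys a b d C A B D) (k : ℤ) :
    a (k + 3) + a (k - 3) = G a b d C (k - 1) * a k := by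
  have h := H.refl.l2 (-k)
  rw [G_refl] at h
  rw [show -(-k) = k by ring, show -(-k + 3) = k - 3 by ring,
    show -(-k - 3) = k + 3 by ring, show -(-k + 1) = k - 1 by ring] at h
  rw [← h]
  ring

theorem G_per (H : Sys a b d C A B D) (k : ℤ) : G a b d C (k + 2) = G a b d C k := by
  have h1 := H.l2 (k + 1)
  have h2 := H.l2r (k + 1)
  rw [h1] at h2
  rw [show k + 1 + 1 = k + 2 by ring, show k + 1 - 1 = k by ring] at h2
  exact mul_right_cancel₀ (H.ha (k + 1)) h2

/-- The value K, so that the recurrence polynomial is (z^2 - K z + 1)(z^6 - K z^3 + 1). -/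
def K (a b d C : ℤ → F) : F := G a b d C 0 * G a b d C 1 - 2

theorem GG (H : Sys a b d C A B D) (k : ℤ) :
    G a b d C k * G a b d C (k + 1) = K a b d C + 2 := by
  induction k using Int.induction_on with
  | zero => unfold K; simp
  | succ i ih =>
    rw [show (i : ℤ) + 1 + 1 = i + 2 by ring, H.G_per, mul_comm]
    exact ih
  | pred i ih =>
    have h := H.G_per (-(i : ℤ) - 1)
    rw [show -(i : ℤ) - 1 + 2 = -i + 1 by ring] at h
    rw [show -(i : ℤ) - 1 + 1 = -i by ring, mul_comm, ← h]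
    exact ih

theorem l3 (H : Sys a b d C A B D) (k : ℤ) :
    a (k + 6) + a (k - 6) = K a b d C * a k := by
  have h1 := H.l2 (k + 3)
  have h2 := H.l2 (k - 3)
  have h3 := H.l2 k
  have h4 := H.GG (k + 1)
  have h5 := H.G_per (k + 2)
  have h6 := H.G_per k
  have h7 := H.G_per (k - 2)
  rw [show k + 3 + 3 = k + 6 by ring, show k + 3 - 3 = k by ring,
    show k + 3 + 1 = k + 2 + 2 by ring, h5, h6] at h1
  rw [show k - 3 - 3 = k - 6 by ring, show k - 3 + 3 = k by ring,
    show k - 3 + 1 = k - 2 by ring] at h2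
  rw [show k - 2 + 2 = k by ring] at h7
  rw [← h7] at h2
  rw [show k + 1 + 1 = k + 2 by ring, h6] at h4
  linear_combination h1 + h2 + G a b d C k * h3 + a k * h4

/-- The second difference of the centre. -/
theorem l4 (H : Sys a b d C A B D) (k : ℤ) :
    C (k + 2) + C (k - 2) - K a b d C * C k =
      -((a (k + 3) + a (k - 3) + a (k + 1) + a (k - 1))
        + (b (k + 3) + b (k - 3) + b (k + 1) + b (k - 1))
        + (d (k + 3) + d (k - 3) + d (k + 1) + d (k - 1))) := by
  have g0 := H.G_mul k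
  have g1 := H.G_mul (k + 1)
  have g2 := H.G_mul (k - 1)
  have h4 := H.GG k
  have hp := H.G_per (k - 1)
  have ha := H.l2 k
  have hb := H.swap.l2 k
  have hd := H.rot.rot.l2 k
  rw [G_swap] at hb
  rw [G_rot, G_rot] at hd
  rw [show k - 1 + 2 = k + 1 by ring] at hp
  rw [show k + 1 + 1 = k + 2 by ring, show k + 1 - 1 = k by ring] at g1
  rw [show k - 1 + 1 = k by ring, show k - 1 - 1 = k - 2 by ring, ← hp] at g2
  linear_combination -g1 - g2 - G a b d C (k + 1) * g0 + C k * h4 + ha + hb + hd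

/-- The recurrence of order sixteen of the centre. -/
theorem main (H : Sys a b d C A B D) (k : ℤ) :
    C (k + 8) - K a b d C * C (k + 6) + C (k + 4) - K a b d C * C (k + 2)
      + K a b d C ^ 2 * C k - K a b d C * C (k - 2) + C (k - 4) - K a b d C * C (k - 6)
      + C (k - 8) = 0 := by
  have e1 := H.l4 (k + 6)
  have e2 := H.l4 k
  have e3 := H.l4 (k - 6)
  have hK1 : K b a d C = K a b d C := by unfold K; rw [G_swap (a := a) (b := b) 0, G_swap (a := a) (b := b) 1]
  have hK2 : K d a b C = K a b d C := by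
    unfold K
    rw [← G_rot (a := d) (b := a) (d := b), ← G_rot (a := d) (b := a) (d := b)]
  have fa := fun j => H.l3 j
  have fb := fun j => H.swap.l3 j
  have fd := fun j => H.rot.rot.l3 j
  simp only [hK1] at fb
  simp only [hK2] at fd
  have a1 := fa (k + 3)
  have a2 := fa (k - 3)
  have a3 := fa (k + 1)
  have a4 := fa (k - 1)
  have b1 := fb (k + 3)
  have b2 := fb (k - 3)
  have b3 := fb (k + 1)
  have b4 := fb (k - 1)
  have d1 := fd (k + 3)
  have d2 := fd (k - 3)
  have d3 := fd (k + 1)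
  have d4 := fd (k - 1)
  ring_nf at e1 e2 e3 a1 a2 a3 a4 b1 b2 b3 b4 d1 d2 d3 d4 ⊢
  linear_combination e1 - K a b d C * e2 + e3 - a1 - a2 - a3 - a4
    - b1 - b2 - b3 - b4 - d1 - d2 - d3 - d4

end Sys

end Pool.Agent.Lib_MP_89a37c
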