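import Pool.Agent.Lib_MP_89a37c.TSys
import Pool.Agent.Lib_MP_89a37c.Seq

/-! The affine quiver of type E6 as an affine-finite quiver: vertices 0, 1, 2 are the ends,
3 is the centre and 4, 5, 6 are the middles of the arms; all arrows go to 4, 5, 6. -/

namespace Pool.Agent.Lib_MP_89a37c

open Polynomial

/-- The arrows of the quiver. -/
def e6arr (u v : Fin 7) : Prop := 4 ≤ v.val ∧ (u.val = 3 ∨ u.val + 4 = v.val)

instance : DecidableRel e6arr := fun u v => by unfold e6arr; infer_instance

/-- The bipartition. -/
def e6eps (v : Fin 7) : ℕ := if v.val < 4 then 0 else 1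

theorem e6_adj (u v : Fin 7) : (SimpleGraph.fromRel e6arr).Adj u v ↔
    (u ≠ v ∧ (e6arr u v ∨ e6arr v u)) := SimpleGraph.fromRel_adj _ _ _

instance : DecidableRel (SimpleGraph.fromRel e6arr).Adj := fun u v =>
  decidable_of_iff _ (e6_adj u v).symm

theorem e6_connected : (SimpleGraph.fromRel e6arr).Connected := by
  have h4 : (SimpleGraph.fromRel e6arr).Adj 3 4 := by rw [e6_adj]; decide
  have h5 : (SimpleGraph.fromRel e6arr).Adj 3 5 := by rw [e6_adj]; decide
  have h6 : (SimpleGraph.fromRel e6arr).Adj 3 6 := by rw [e6_adj]; decide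
  have h0 : (SimpleGraph.fromRel e6arr).Adj 4 0 := by rw [e6_adj]; decide
  have h1 : (SimpleGraph.fromRel e6arr).Adj 5 1 := by rw [e6_adj]; decide
  have h2 : (SimpleGraph.fromRel e6arr).Adj 6 2 := by rw [e6_adj]; decide
  have hr : ∀ v : Fin 7, (SimpleGraph.fromRel e6arr).Reachable 3 v := by
    intro v
    fin_cases v
    · exact h4.reachable.trans h0.reachable
    · exact h5.reachable.trans h1.reachable
    · exact h6.reachable.trans h2.reachable
    · exact SimpleGraph.Reachable.refl _
    · exact h4.reachable
    · exact h5.reachable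
    · exact h6.reachable
  have hne : Nonempty (Fin 7) := ⟨0⟩
  exact { preconnected := fun u v => (hr u).symm.trans (hr v), nonempty := hne }

/-- The quiver. -/
def e6 : BQuiver (Fin 7) where
  arr := e6arr
  eps := e6eps
  eps_le := by decide
  bip := by decide
  no_two_cycle := by decide
  connected := e6_connected

theorem e6_part0 : e6.part 0 = SimpleGraph.fromRel e6arr := by
  ext u v
  have h : ∀ u v : Fin 7, (u ≠ v ∧ ((e6arr u v ∧ e6eps u = 0) ∨ (e6arr v u ∧ e6eps v = 0))) ↔
    (u ≠ v ∧ (e6arr u v ∨ e6arr v u)) := by decide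
  rw [e6_adj, ← h u v]
  exact SimpleGraph.fromRel_adj _ _ _

theorem e6_part1 : e6.part 1 = ⊥ := by
  ext u v
  have h : ∀ u v : Fin 7, ¬ (u ≠ v ∧ ((e6arr u v ∧ e6eps u = 1) ∨ (e6arr v u ∧ e6eps v = 1))) := by
    decide
  constructor
  · intro h1
    exact absurd ((SimpleGraph.fromRel_adj _ _ _).mp h1) (h u v)
  · intro h1
    exact absurd h1 (by simp)

/-- The isomorphism with the standard diagram. -/
def e6map : Fin 7 → Fin 7 := ![0, 4, 6, 2, 1, 3, 5]

/-- Its inverse. -/
def e6inv : Fin 7 → Fin 7 := ![0, 4, 3, 5, 1, 6, 2]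

theorem e6_affine : ComponentsIn (e6.part 0) AffineADE := by
  rw [e6_part0]
  intro c
  refine ⟨7, _, AffineADE.E6, ?_⟩
  have hs : ∀ v : Fin 7, v ∈ c.supp := by
    intro v
    rw [SimpleGraph.ConnectedComponent.mem_supp_iff]
    induction c using SimpleGraph.ConnectedComponent.ind with
    | h w =>
      rw [SimpleGraph.ConnectedComponent.eq]
      exact e6_connected.preconnected v w
  refine ⟨{ toFun := fun v => e6map v.1
            invFun := fun v => ⟨e6inv v, hs _⟩
            left_inv := ?_
            right_inv := ?_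
            map_rel_iff' := ?_ }⟩
  · intro v
    apply Subtype.ext
    change e6inv (e6map v.1) = v.1
    generalize v.1 = w
    revert w
    decide
  · intro v
    change e6map (e6inv v) = v
    revert v
    decide
  · intro u v
    change (listGraph 7 ((2, 5) :: (5, 6) :: pathEdges 0 4)).Adj (e6map u.1) (e6map v.1) ↔
      (SimpleGraph.fromRel e6arr).Adj u.1 v.1
    rw [e6_adj]
    rw [show (listGraph 7 ((2, 5) :: (5, 6) :: pathEdges 0 4)).Adj (e6map u.1) (e6map v.1) ↔ _
      from SimpleGraph.fromRel_adj _ _ _]
    generalize u.1 = a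
    generalize v.1 = b
    revert a b
    decide

theorem e6_finite : ComponentsIn (e6.part 1) FiniteADE := by
  rw [e6_part1]
  intro c
  refine ⟨1, _, FiniteADE.A 1 le_rfl, ?_⟩
  induction c using SimpleGraph.ConnectedComponent.ind with
  | h w =>
    have hw : ∀ v : Fin 7, v ∈ ((⊥ : SimpleGraph (Fin 7)).connectedComponentMk w).supp ↔
        v = w := by
      intro v
      rw [SimpleGraph.ConnectedComponent.mem_supp_iff, SimpleGraph.ConnectedComponent.eq,
        SimpleGraph.reachable_bot]
    refine ⟨{ toFun := fun _ => 0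
              invFun := fun _ => ⟨w, (hw w).mpr rfl⟩
              left_inv := ?_
              right_inv := ?_
              map_rel_iff' := ?_ }⟩
    · intro v
      apply Subtype.ext
      exact ((hw v.1).mp v.2).symm
    · intro v
      exact Subsingleton.elim _ _
    · intro u v
      constructor
      · intro h
        exact absurd h (by simp)
      · intro h
        exact absurd h (by simp)

theorem e6_affineFinite : e6.AffineFinite := by
  refine ⟨?_, Or.inl ⟨e6_affine, e6_finite⟩⟩
  have h : (open Classical in (e6.part 1).adjMatrix ℤ) = 0 := by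
    classical
    ext u v
    rw [SimpleGraph.adjMatrix_apply]
    rw [if_neg]
    · rfl
    · rw [e6_part1]; simp
  rw [h]
  exact Commute.zero_right _

end Pool.Agent.Lib_MP_89a37c
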