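import Pool.Agent.Lib_MP_89a37c.E6

/-! The relations of the T-system of the affine quiver of type E6. -/

namespace Pool.Agent.Lib_MP_89a37c

open Polynomial

variable {T : Fin 7 → ℤ → RatFun (Fin 7)}

theorem filt_in (v : Fin 7) (S : Finset (Fin 7))
    (h : (Finset.univ.filter fun u => e6arr u v) = S) :
    (open Classical in Finset.univ.filter fun u => e6.arr u v) = S := by
  classical
  rw [← h]
  ext u
  rw [Finset.mem_filter, Finset.mem_filter]
  exact Iff.rfl

theorem filt_out (v : Fin 7) (S : Finset (Fin 7))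
    (h : (Finset.univ.filter fun u => e6arr v u) = S) :
    (open Classical in Finset.univ.filter fun u => e6.arr v u) = S := by
  classical
  rw [← h]
  ext u
  rw [Finset.mem_filter, Finset.mem_filter]
  exact Iff.rfl

theorem step_end (hT : IsTSystem e6 T) (v w : Fin 7)
    (h1 : (Finset.univ.filter fun u => e6arr u v) = ∅)
    (h2 : (Finset.univ.filter fun u => e6arr v u) = {w}) (h3 : e6eps v = 0) (k : ℤ) :
    T v (2 * k) * T v (2 * (k + 1)) = 1 + T w (2 * k + 1) := by
  have hs := hT.step v (2 * k + 1) (by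
    change Even (2 * k + 1 + 1 + (e6eps v : ℤ))
    rw [h3]
    exact ⟨k + 1, by push_cast; ring⟩)
  rw [filt_in v _ h1, filt_out v _ h2, Finset.prod_empty, Finset.prod_singleton,
    show 2 * k + 1 - 1 = 2 * k by ring, show 2 * k + 1 + 1 = 2 * (k + 1) by ring, mul_comm] at hs
  exact hs

theorem step_centre (hT : IsTSystem e6 T) (k : ℤ) :
    T 3 (2 * k) * T 3 (2 * (k + 1)) =
      1 + T 4 (2 * k + 1) * T 5 (2 * k + 1) * T 6 (2 * k + 1) := by
  have hs := hT.step 3 (2 * k + 1) (by
    change Even (2 * k + 1 + 1 + (e6eps 3 : ℤ))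
    rw [show e6eps 3 = 0 from rfl]
    exact ⟨k + 1, by push_cast; ring⟩)
  rw [filt_in 3 ∅ (by decide), filt_out 3 {4, 5, 6} (by decide), Finset.prod_empty,
    Finset.prod_insert (by decide), Finset.prod_insert (by decide), Finset.prod_singleton,
    show 2 * k + 1 - 1 = 2 * k by ring, show 2 * k + 1 + 1 = 2 * (k + 1) by ring, mul_comm] at hs
  rw [hs]
  ring

theorem step_mid (hT : IsTSystem e6 T) (v w : Fin 7)
    (h1 : (Finset.univ.filter fun u => e6arr u v) = {w, 3}) (hw : w ≠ 3)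
    (h2 : (Finset.univ.filter fun u => e6arr v u) = ∅) (h3 : e6eps v = 1) (k : ℤ) :
    T v (2 * k + 1) * T v (2 * (k + 1) + 1) = 1 + T w (2 * (k + 1)) * T 3 (2 * (k + 1)) := by
  have hs := hT.step v (2 * (k + 1)) (by
    change Even (2 * (k + 1) + 1 + (e6eps v : ℤ))
    rw [h3]
    exact ⟨k + 2, by push_cast; ring⟩)
  rw [filt_in v _ h1, filt_out v _ h2, Finset.prod_empty,
    Finset.prod_insert (by rw [Finset.mem_singleton]; exact hw), Finset.prod_singleton,
    show 2 * (k + 1) - 1 = 2 * k + 1 by ring, mul_comm] at hs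
  rw [hs]
  ring

theorem even_ne (hT : IsTSystem e6 T) (v : Fin 7) (h : e6eps v = 0) (k : ℤ) :
    T v (2 * k) ≠ 0 := by
  refine Pos.ne_zero (x := fun _ => 1) ((tsystem_pos hT (fun _ => one_pos) (2 * k)).1 v ?_)
  change Even (2 * k + (e6eps v : ℤ))
  rw [h]
  exact ⟨k, by push_cast; ring⟩

theorem odd_ne (hT : IsTSystem e6 T) (v : Fin 7) (h : e6eps v = 1) (k : ℤ) :
    T v (2 * k + 1) ≠ 0 := by
  refine Pos.ne_zero (x := fun _ => 1) ((tsystem_pos hT (fun _ => one_pos) (2 * k + 1)).1 v ?_)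
  change Even (2 * k + 1 + (e6eps v : ℤ))
  rw [h]
  exact ⟨k + 1, by push_cast; ring⟩

theorem e6_sys (hT : IsTSystem e6 T) :
    Sys (fun k => T 0 (2 * k)) (fun k => T 1 (2 * k)) (fun k => T 2 (2 * k))
      (fun k => T 3 (2 * k)) (fun k => T 4 (2 * k + 1)) (fun k => T 5 (2 * k + 1))
      (fun k => T 6 (2 * k + 1)) where
  ha := even_ne hT 0 rfl
  hb := even_ne hT 1 rfl
  hd := even_ne hT 2 rfl
  hC := even_ne hT 3 rfl
  hA := odd_ne hT 4 rfl
  hB := odd_ne hT 5 rfl
  hD := odd_ne hT 6 rfl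
  e1a := step_end hT 0 4 (by decide) (by decide) rfl
  e1b := step_end hT 1 5 (by decide) (by decide) rfl
  e1d := step_end hT 2 6 (by decide) (by decide) rfl
  e2 := step_centre hT
  e3a := step_mid hT 4 0 (by decide) (by decide) (by decide) rfl
  e3b := step_mid hT 5 1 (by decide) (by decide) (by decide) rfl
  e3d := step_mid hT 6 2 (by decide) (by decide) (by decide) rfl

end Pool.Agent.Lib_MP_89a37c
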