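import Pool.Agent.Lib_MP_89a37c.Minimal

/-! The recurrence polynomial of the centre and its roots. -/

namespace Pool.Agent.Lib_MP_89a37c

open Polynomial

variable {T : Fin 7 → ℤ → RatFun (Fin 7)}

/-- The coefficients of the recurrence. -/
noncomputable def coefJ (κ : RatFun (Fin 7)) : ℕ → RatFun (Fin 7)
  | 0 => 1
  | 1 => κ
  | 2 => 1
  | 3 => κ
  | 4 => κ ^ 2
  | 5 => κ
  | 6 => 1
  | 7 => κ
  | 8 => 1
  | _ => 0

theorem isRecurrence (hT : IsTSystem e6 T) : IsRecurrence e6 T 3 4 7 (coefJ (kap T)) where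
  pos := by norm_num
  first := rfl
  last := rfl
  defined := by
    intro k _ _
    exact ⟨2 * (7 + 1 - k), by ring⟩
  rel := by
    intro t ht
    have ht' : Even (t + ((0 : ℕ) : ℤ)) := ht
    obtain ⟨m, hm⟩ := ht'
    have h := (e6_sys hT).main (m + 8)
    simp only [show m + 8 + 8 = m + 16 by ring, show m + 8 + 6 = m + 14 by ring,
      show m + 8 + 4 = m + 12 by ring, show m + 8 + 2 = m + 10 by ring,
      show m + 8 - 2 = m + 6 by ring, show m + 8 - 4 = m + 4 by ring,
      show m + 8 - 6 = m + 2 by ring, show m + 8 - 8 = m by ring] at h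
    have ht2 : t = 2 * m := by
      push_cast at hm
      omega
    rw [ht2]
    simp only [Finset.sum_range_succ, Finset.sum_range_zero, coefJ, zero_add]
    simp only [show (2 * m + ((4 * (7 + 1 - 0) : ℕ) : ℤ)) = 2 * (m + 16) by norm_num; ring,
      show (2 * m + ((4 * (7 + 1 - 1) : ℕ) : ℤ)) = 2 * (m + 14) by norm_num; ring,
      show (2 * m + ((4 * (7 + 1 - 2) : ℕ) : ℤ)) = 2 * (m + 12) by norm_num; ring,
      show (2 * m + ((4 * (7 + 1 - 3) : ℕ) : ℤ)) = 2 * (m + 10) by norm_num; ring,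
      show (2 * m + ((4 * (7 + 1 - 4) : ℕ) : ℤ)) = 2 * (m + 8) by norm_num; ring,
      show (2 * m + ((4 * (7 + 1 - 5) : ℕ) : ℤ)) = 2 * (m + 6) by norm_num; ring,
      show (2 * m + ((4 * (7 + 1 - 6) : ℕ) : ℤ)) = 2 * (m + 4) by norm_num; ring,
      show (2 * m + ((4 * (7 + 1 - 7) : ℕ) : ℤ)) = 2 * (m + 2) by norm_num; ring,
      show (2 * m + ((4 * (7 + 1 - 8) : ℕ) : ℤ)) = 2 * m by norm_num]
    unfold kap
    linear_combination h

/-- The polynomial in the shift by one. -/
noncomputable def bigPol {F : Type} [Field F] (κ : F) : F[X] :=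
  (X ^ 8 - C κ * X ^ 4 + 1) * (X ^ 24 - C κ * X ^ 12 + 1)

theorem bigPol_expand {F : Type} [Field F] (κ : F) : bigPol κ =
    X ^ 32 - C κ * X ^ 28 + X ^ 24 - C κ * X ^ 20 + C (κ ^ 2) * X ^ 16 - C κ * X ^ 12 + X ^ 8
      - C κ * X ^ 4 + 1 := by
  unfold bigPol
  rw [C_pow]
  ring

theorem bigPol_monic {F : Type} [Field F] (κ : F) : (bigPol κ).Monic := by
  unfold bigPol
  apply Monic.mul
  · monicity!
  · monicity!

theorem bigPol_natDegree {F : Type} [Field F] (κ : F) : (bigPol κ).natDegree = 32 := by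
  rw [bigPol_expand]
  compute_degree!

theorem bigPol_eq_expand {F : Type} [Field F] (κ : F) : bigPol κ = expand F 2 (annPol κ) := by
  unfold bigPol annPol
  simp only [map_mul, map_add, map_sub, map_pow, expand_X, expand_C, map_one, ← pow_mul]

theorem charPol_coefJ (κ : RatFun (Fin 7)) : charPol 4 7 (coefJ κ) = bigPol κ := by
  rw [bigPol_expand]
  unfold charPol
  simp only [Finset.sum_range_succ, Finset.sum_range_zero, coefJ, zero_add]
  norm_num
  ring

/-- The half-scale polynomial of a recurrence. -/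
noncomputable def halfPol (i N : ℕ) (J : ℕ → RatFun (Fin 7)) : (RatFun (Fin 7))[X] :=
  ∑ k ∈ Finset.range (N + 2), C ((-1) ^ k * J k) * X ^ (i * (N + 1 - k) / 2)

theorem charPol_eq_expand {i N : ℕ} {J : ℕ → RatFun (Fin 7)}
    (h : ∀ k ≤ N + 1, J k ≠ 0 → Even (i * (N + 1 - k))) :
    charPol i N J = expand _ 2 (halfPol i N J) := by
  unfold charPol halfPol
  rw [map_sum]
  apply Finset.sum_congr rfl
  intro k hk
  rw [Finset.mem_range] at hk
  by_cases h0 : J k = 0
  · rw [h0, mul_zero, C_0, zero_mul, zero_mul, map_zero]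
  · obtain ⟨b, hb⟩ := h k (by omega) h0
    generalize (-1) ^ k * J k = c
    rw [map_mul, map_pow, expand_X, expand_C, ← pow_mul]
    rw [hb, show (b + b) / 2 = b by omega, two_mul]

theorem half_apply {i N : ℕ} {J : ℕ → RatFun (Fin 7)} (h : IsRecurrence e6 T 3 i N J) :
    (aeval (shift (RatFun (Fin 7))) (halfPol i N J)) (fun k => T 3 (2 * k)) = 0 := by
  funext m
  have h1 := h.rel (2 * m) (by
    change Even (2 * m + ((0 : ℕ) : ℤ))
    exact ⟨m, by push_cast; ring⟩)
  unfold halfPol
  rw [map_sum, LinearMap.sum_apply, Finset.sum_apply, Pi.zero_apply, ← h1]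
  apply Finset.sum_congr rfl
  intro k hk
  rw [Finset.mem_range] at hk
  rw [map_mul, map_pow, aeval_X, aeval_C, Module.End.mul_apply, Module.algebraMap_end_apply,
    Pi.smul_apply, shift_pow, smul_eq_mul]
  by_cases h0 : J k = 0
  · rw [h0, mul_zero, zero_mul, zero_mul]
  · obtain ⟨b, hb⟩ := h.defined k (by omega) h0
    rw [hb, show (b + b) / 2 = b by omega]
    congr 2
    push_cast
    ring

theorem ann_dvd (hT : IsTSystem e6 T) (g : (RatFun (Fin 7))[X])
    (hg : (aeval (shift (RatFun (Fin 7))) g) (fun k => T 3 (2 * k)) = 0) :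
    annPol (kap T) ∣ g := by
  rw [← modByMonic_eq_zero_iff_dvd (annPol_monic _)]
  set r := g %ₘ annPol (kap T) with hr
  have hdeg : r.natDegree < 16 := by
    have h1 := natDegree_modByMonic_lt g (annPol_monic (kap T)) (by
      intro h
      have h2 := annPol_natDegree (kap T)
      rw [h, natDegree_one] at h2
      exact absurd h2 (by norm_num))
    rwa [annPol_natDegree] at h1
  have hr0 : (aeval (shift (RatFun (Fin 7))) r) (fun k => T 3 (2 * k)) = 0 := by
    have h1 : r = g - (g /ₘ annPol (kap T)) * annPol (kap T) := by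
      rw [hr, modByMonic_eq_sub_mul_div, mul_comm]
    rw [h1, map_sub, map_mul, LinearMap.sub_apply, Module.End.mul_apply, ann_apply hT, map_zero,
      hg, sub_zero]
  have hc := indep hT (fun j => r.coeff j) (by
    intro m
    have h1 := congrFun hr0 m
    rw [aeval_eq_sum_range' hdeg, LinearMap.sum_apply, Finset.sum_apply] at h1
    rw [Pi.zero_apply] at h1
    rw [← h1]
    apply Finset.sum_congr rfl
    intro j _
    rw [LinearMap.smul_apply, Pi.smul_apply, shift_pow, smul_eq_mul])
  ext j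
  rw [coeff_zero]
  rcases Nat.lt_or_ge j 16 with h | h
  · exact hc j h
  · exact coeff_eq_zero_of_natDegree_lt (by omega)

theorem bigPol_dvd (hT : IsTSystem e6 T) {i N : ℕ} {J : ℕ → RatFun (Fin 7)}
    (h : IsRecurrence e6 T 3 i N J) : bigPol (kap T) ∣ charPol i N J := by
  rw [charPol_eq_expand h.defined, bigPol_eq_expand]
  obtain ⟨q, hq⟩ := ann_dvd hT _ (half_apply h)
  rw [hq, map_mul]
  exact Dvd.intro _ rfl

theorem isMinimal (hT : IsTSystem e6 T) : IsMinimalRecurrence e6 T 3 4 7 (coefJ (kap T)) where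
  toIsRecurrence := isRecurrence hT
  minimal := by
    intro i' N' J' h
    rw [charPol_coefJ]
    exact bigPol_dvd hT h

theorem charPol_monic {V : Type} {i N : ℕ} {J : ℕ → RatFun V} (hi : 1 ≤ i) (h0 : J 0 = 1) :
    (charPol i N J).Monic := by
  apply monic_of_natDegree_le_of_coeff_eq_one (i * (N + 1))
  · unfold charPol
    apply natDegree_sum_le_of_forall_le
    intro k _
    refine (natDegree_C_mul_X_pow_le _ _).trans ?_
    exact Nat.mul_le_mul_left _ (Nat.sub_le _ _)
  · unfold charPol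
    rw [finsetSum_coeff, Finset.sum_eq_single 0]
    · rw [coeff_C_mul_X_pow, if_pos (by rw [Nat.sub_zero]), h0, pow_zero, mul_one]
    · intro k hk hk0
      rw [Finset.mem_range] at hk
      rw [coeff_C_mul_X_pow, if_neg]
      intro h
      have h1 := Nat.eq_of_mul_eq_mul_left (by omega) h
      omega
    · intro h
      exact absurd (Finset.mem_range.mpr (by omega)) h

theorem charPol_eq (hT : IsTSystem e6 T) {i N : ℕ} {J : ℕ → RatFun (Fin 7)}
    (h : IsMinimalRecurrence e6 T 3 i N J) : charPol i N J = bigPol (kap T) := by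
  have h1 := h.minimal 4 7 _ (isRecurrence hT)
  rw [charPol_coefJ] at h1
  exact eq_of_monic_of_associated (charPol_monic h.pos h.first) (bigPol_monic _)
    (associated_of_dvd_dvd h1 (bigPol_dvd hT h.toIsRecurrence))

end Pool.Agent.Lib_MP_89a37c
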