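import Mathlib

/-! Numbers: the T-system of the affine quiver of type E6 at the point where one of the middle
variables is 2 and all other variables are 1, at 31 consecutive times; all values are integers,
and the Hankel matrix of order 16 of the values at the centre is invertible modulo 13. -/

namespace Pool.Agent.Lib_MP_89a37c

/-- Values of the sequence a. -/
def va (n : ℕ) : ℤ := List.getD
    [1932558, 316517, 284373, 64615, 28862, 9508, 5892, 965, 867, 197, 88, 29, 18, 3, 3, 1, 2,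
    4, 12, 19, 117, 131, 568, 1283, 3918, 6229, 38373, 42967, 186302, 420820, 1285092]
    n 0

/-- Values of the sequence b. -/
def vb (n : ℕ) : ℤ := List.getD
    [1932558, 316517, 284373, 64615, 28862, 9508, 5892, 965, 867, 197, 88, 29, 18, 3, 3, 1, 2,
    4, 12, 19, 117, 131, 568, 1283, 3918, 6229, 38373, 42967, 186302, 420820, 1285092]
    n 0

/-- Values of the sequence d. -/
def vd (n : ℕ) : ℤ := List.getD
    [1393003, 636642, 196142, 46575, 58053, 6558, 4247, 1941, 598, 142, 177, 20, 13, 6, 2, 1,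
    3, 2, 17, 27, 58, 186, 807, 636, 5563, 8850, 19022, 61007, 264693, 208606, 1824647]
    n 0

/-- Values of the sequence C. -/
def vC (n : ℕ) : ℤ := List.getD
    [1907605455830902058, 173947398198568347, 5815924352080083, 530332363069255,
    17731641505917, 1616881992478, 54060385767, 4929564501, 164819873, 15029357, 502518, 45830,
    1534, 141, 5, 1, 3, 82, 889, 26547, 291063, 8705051, 95464050, 2855214506, 31311892314,
    936501541515, 10270205043043, 307169649654007, 3368595941004093, 100750708579831486,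
    1104889198436092007]
    n 0

/-- Values of the sequence A. -/
def vA (n : ℕ) : ℤ := List.getD
    [611687460485, 90008888840, 18374761394, 1864918129, 274419895, 56021135, 5685779, 836654,
    170798, 17335, 2551, 521, 53, 8, 2, 1, 7, 47, 227, 2222, 15326, 74407, 728743, 5026793,
    24405221, 239025416, 1648772690, 8004838033, 78399607639, 540792415439, 2625562469555]
    n 0

/-- Values of the sequence B. -/
def vB (n : ℕ) : ℤ := List.getD
    [611687460485, 90008888840, 18374761394, 1864918129, 274419895, 56021135, 5685779, 836654,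
    170798, 17335, 2551, 521, 53, 8, 2, 1, 7, 47, 227, 2222, 15326, 74407, 728743, 5026793,
    24405221, 239025416, 1648772690, 8004838033, 78399607639, 540792415439, 2625562469555]
    n 0

/-- Values of the sequence D. -/
def vD (n : ℕ) : ℤ := List.getD
    [886844215925, 124872235163, 9135313649, 2703818474, 380711573, 27851825, 8243426, 1160717,
    84915, 25133, 3539, 259, 77, 11, 1, 2, 5, 33, 458, 1565, 10787, 150101, 513251, 3538067,
    49232549, 168344699, 1160475153, 16148125850, 55216547957, 380632312081, 5296536046130]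
    n 0

/-- An inverse modulo 13 of the Hankel matrix, row by row. -/
def inv13 (i j : ℕ) : ℤ := List.getD (List.getD
    [[5, 7, 8, 10, 3, 11, 12, 1, 6, 7, 6, 5, 10, 2, 3, 12],
    [7, 10, 10, 11, 11, 1, 1, 0, 7, 8, 5, 5, 2, 5, 12, 8],
    [8, 10, 0, 0, 5, 2, 3, 6, 3, 5, 0, 6, 1, 1, 12, 9],
    [10, 11, 0, 10, 2, 1, 6, 9, 5, 11, 6, 6, 1, 10, 9, 5],
    [3, 11, 5, 2, 4, 8, 8, 7, 4, 4, 12, 9, 7, 2, 8, 2],
    [11, 1, 2, 1, 8, 4, 7, 3, 4, 8, 9, 4, 2, 4, 2, 10],
    [12, 1, 3, 6, 8, 7, 6, 6, 3, 8, 12, 2, 0, 3, 1, 5],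
    [1, 0, 6, 9, 7, 3, 6, 12, 8, 9, 2, 1, 3, 11, 5, 1],
    [6, 7, 3, 5, 4, 4, 3, 8, 11, 3, 3, 8, 10, 0, 2, 3],
    [7, 8, 5, 11, 4, 8, 8, 9, 3, 8, 8, 4, 0, 7, 3, 7],
    [6, 5, 0, 6, 12, 9, 12, 2, 3, 8, 12, 4, 3, 5, 11, 9],
    [5, 5, 6, 6, 9, 4, 2, 1, 8, 4, 4, 10, 5, 3, 9, 7],
    [10, 2, 1, 1, 7, 2, 0, 3, 10, 0, 3, 5, 0, 0, 10, 7],
    [2, 5, 1, 10, 2, 4, 3, 11, 0, 7, 5, 3, 0, 1, 7, 3],
    [3, 12, 12, 9, 8, 2, 1, 5, 2, 3, 11, 9, 10, 7, 7, 1],
    [12, 8, 9, 5, 2, 10, 5, 1, 3, 7, 9, 7, 7, 3, 1, 10]]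
    i []) j 0

/-- The relations between the values at two consecutive times. -/
def Check (n : ℕ) : Prop :=
  va n * va (n + 1) = 1 + vA n ∧ vb n * vb (n + 1) = 1 + vB n ∧ vd n * vd (n + 1) = 1 + vD n ∧
  vC n * vC (n + 1) = 1 + vA n * vB n * vD n ∧
  vA n * vA (n + 1) = 1 + va (n + 1) * vC (n + 1) ∧
  vB n * vB (n + 1) = 1 + vb (n + 1) * vC (n + 1) ∧
  vD n * vD (n + 1) = 1 + vd (n + 1) * vC (n + 1)

instance (n : ℕ) : Decidable (Check n) := by unfold Check; infer_instance

theorem check_all : ∀ n < 30, Check n := by decide +kernel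

/-- All values are positive. -/
def CheckPos (n : ℕ) : Prop :=
  0 < va n ∧ 0 < vb n ∧ 0 < vd n ∧ 0 < vC n ∧ 0 < vA n ∧ 0 < vB n ∧ 0 < vD n

instance (n : ℕ) : Decidable (CheckPos n) := by unfold CheckPos; infer_instance

theorem checkPos_all : ∀ n < 31, CheckPos n := by decide +kernel

theorem check_inv : ∀ i : Fin 16, ∀ j : Fin 16,
    (∑ k : Fin 16, vC (i.val + k.val) * inv13 k.val j.val - if i = j then 1 else 0) % 13 = 0 := by
  decide +kernel

/-- The Hankel matrix. -/
def hankel : Matrix (Fin 16) (Fin 16) ℤ := Matrix.of fun i j => vC (i.val + j.val)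

theorem hankel_det_ne : hankel.det ≠ 0 := by
  intro h0
  have h1 : (hankel.map (Int.castRingHom (ZMod 13))).det = 0 := by
    rw [← RingHom.mapMatrix_apply, ← RingHom.map_det, h0, map_zero]
  have h2 : hankel.map (Int.castRingHom (ZMod 13)) *
      (Matrix.of fun i j : Fin 16 => (inv13 i.val j.val : ZMod 13)) = 1 := by
    ext i j
    rw [Matrix.mul_apply]
    have h3 := check_inv i j
    have h4 := (ZMod.intCast_zmod_eq_zero_iff_dvd _ 13).mpr (Int.dvd_of_emod_eq_zero h3)
    push_cast at h4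
    rw [sub_eq_zero] at h4
    rw [Matrix.one_apply, ← h4]
    apply Finset.sum_congr rfl
    intro k _
    simp [hankel]
  have h3 := congrArg Matrix.det h2
  rw [Matrix.det_mul, h1, zero_mul, Matrix.det_one] at h3
  exact absurd h3 (by decide)

end Pool.Agent.Lib_MP_89a37c
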