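import Pool.Agent.Lib_MP_89a37c.E6Sys
import Pool.Agent.Lib_MP_89a37c.Numbers

/-! The recurrence of the centre is minimal. -/

namespace Pool.Agent.Lib_MP_89a37c

open Polynomial

variable {T : Fin 7 → ℤ → RatFun (Fin 7)}

/-- The point at which the numbers are computed. -/
def x0 : Fin 7 → ℝ := fun v => if v = 6 then 2 else 1

theorem x0_pos (v : Fin 7) : 0 < x0 v := by
  unfold x0
  split_ifs <;> norm_num

/-- The seven values at time `k` are the `n`-th entries of the lists. -/
def Vals (T : Fin 7 → ℤ → RatFun (Fin 7)) (k : ℤ) (n : ℕ) : Prop :=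
  HasValue (T 0 (2 * k)) x0 (va n) ∧ HasValue (T 1 (2 * k)) x0 (vb n) ∧
  HasValue (T 2 (2 * k)) x0 (vd n) ∧ HasValue (T 3 (2 * k)) x0 (vC n) ∧
  HasValue (T 4 (2 * k + 1)) x0 (vA n) ∧ HasValue (T 5 (2 * k + 1)) x0 (vB n) ∧
  HasValue (T 6 (2 * k + 1)) x0 (vD n)

/-- Division of an exact relation. -/
theorem HasValue.solve {f g h : RatFun (Fin 7)} {p q r : ℤ} (hf : HasValue f x0 p)
    (hh : HasValue h x0 r) (hp : 0 < p) (h1 : f * g = h) (h2 : p * q = r) :
    HasValue g x0 q := by
  have hp' : (p : ℝ) ≠ 0 := by exact_mod_cast hp.ne'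
  have hf' : f ≠ 0 := hf.ne_zero hp'
  have h3 := hh.div hf hp'
  have h4 : h / f = g := by rw [← h1]; field_simp
  have h5 : (r : ℝ) / p = q := by rw [← h2]; push_cast; field_simp
  rwa [h4, h5] at h3

theorem vals_up (hT : IsTSystem e6 T) {k : ℤ} {n : ℕ} (hn : n < 30) (h : Vals T k n) :
    Vals T (k + 1) (n + 1) := by
  obtain ⟨ha, hb, hd, hC, hA, hB, hD⟩ := h
  obtain ⟨ca, cb, cd, cC, cA, cB, cD⟩ := check_all n hn
  obtain ⟨pa, pb, pd, pC, pA, pB, pD⟩ := checkPos_all n (by omega)
  have H := e6_sys hT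
  have e1 := H.e1a k
  have e2 := H.e1b k
  have e3 := H.e1d k
  have e4 := H.e2 k
  have e5 := H.e3a k
  have e6' := H.e3b k
  have e7 := H.e3d k
  have na : HasValue (T 0 (2 * (k + 1))) x0 (va (n + 1)) :=
    HasValue.solve ha (r := 1 + vA n) (by push_cast; exact HasValue.one.add hA) pa e1 ca
  have nb : HasValue (T 1 (2 * (k + 1))) x0 (vb (n + 1)) :=
    HasValue.solve hb (r := 1 + vB n) (by push_cast; exact HasValue.one.add hB) pb e2 cb
  have nd : HasValue (T 2 (2 * (k + 1))) x0 (vd (n + 1)) :=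
    HasValue.solve hd (r := 1 + vD n) (by push_cast; exact HasValue.one.add hD) pd e3 cd
  have nC : HasValue (T 3 (2 * (k + 1))) x0 (vC (n + 1)) :=
    HasValue.solve hC (r := 1 + vA n * vB n * vD n)
      (by push_cast; exact HasValue.one.add ((hA.mul hB).mul hD)) pC e4 cC
  refine ⟨na, nb, nd, nC, ?_, ?_, ?_⟩
  · exact HasValue.solve hA (r := 1 + va (n + 1) * vC (n + 1))
      (by push_cast; exact HasValue.one.add (na.mul nC)) pA e5 cA
  · exact HasValue.solve hB (r := 1 + vb (n + 1) * vC (n + 1))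
      (by push_cast; exact HasValue.one.add (nb.mul nC)) pB e6' cB
  · exact HasValue.solve hD (r := 1 + vd (n + 1) * vC (n + 1))
      (by push_cast; exact HasValue.one.add (nd.mul nC)) pD e7 cD

theorem vals_down (hT : IsTSystem e6 T) {k : ℤ} {n : ℕ} (hn : n < 30)
    (h : Vals T (k + 1) (n + 1)) : Vals T k n := by
  obtain ⟨ha, hb, hd, hC, hA, hB, hD⟩ := h
  obtain ⟨ca, cb, cd, cC, cA, cB, cD⟩ := check_all n hn
  obtain ⟨pa, pb, pd, pC, pA, pB, pD⟩ := checkPos_all (n + 1) (by omega)
  have H := e6_sys hT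
  have e1 := H.e1a k
  have e2 := H.e1b k
  have e3 := H.e1d k
  have e4 := H.e2 k
  have e5 := H.e3a k
  have e6' := H.e3b k
  have e7 := H.e3d k
  have nA : HasValue (T 4 (2 * k + 1)) x0 (vA n) :=
    HasValue.solve hA (r := 1 + va (n + 1) * vC (n + 1))
      (by push_cast; exact HasValue.one.add (ha.mul hC)) pA (by rw [mul_comm]; exact e5)
      (by rw [mul_comm]; exact cA)
  have nB : HasValue (T 5 (2 * k + 1)) x0 (vB n) :=
    HasValue.solve hB (r := 1 + vb (n + 1) * vC (n + 1))
      (by push_cast; exact HasValue.one.add (hb.mul hC)) pB (by rw [mul_comm]; exact e6')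
      (by rw [mul_comm]; exact cB)
  have nD : HasValue (T 6 (2 * k + 1)) x0 (vD n) :=
    HasValue.solve hD (r := 1 + vd (n + 1) * vC (n + 1))
      (by push_cast; exact HasValue.one.add (hd.mul hC)) pD (by rw [mul_comm]; exact e7)
      (by rw [mul_comm]; exact cD)
  refine ⟨?_, ?_, ?_, ?_, nA, nB, nD⟩
  · exact HasValue.solve ha (r := 1 + vA n) (by push_cast; exact HasValue.one.add nA) pa
      (by rw [mul_comm]; exact e1) (by rw [mul_comm]; exact ca)
  · exact HasValue.solve hb (r := 1 + vB n) (by push_cast; exact HasValue.one.add nB) pb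
      (by rw [mul_comm]; exact e2) (by rw [mul_comm]; exact cb)
  · exact HasValue.solve hd (r := 1 + vD n) (by push_cast; exact HasValue.one.add nD) pd
      (by rw [mul_comm]; exact e3) (by rw [mul_comm]; exact cd)
  · exact HasValue.solve hC (r := 1 + vA n * vB n * vD n)
      (by push_cast; exact HasValue.one.add ((nA.mul nB).mul nD)) pC
      (by rw [mul_comm]; exact e4) (by rw [mul_comm]; exact cC)

theorem vals_zero (hT : IsTSystem e6 T) : Vals T 0 15 := by
  have h : ∀ v : Fin 7, HasValue (T v (e6eps v)) x0 (x0 v) := by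
    intro v
    have h1 := hT.init v
    rw [show e6.eps v = e6eps v from rfl] at h1
    rw [h1]
    exact HasValue.var v
  have h0 := h 0
  have h1 := h 1
  have h2 := h 2
  have h3 := h 3
  have h4 := h 4
  have h5 := h 5
  have h6 := h 6
  have e0 : va 15 = 1 := by decide
  have e1 : vb 15 = 1 := by decide
  have e2 : vd 15 = 1 := by decide
  have e3 : vC 15 = 1 := by decide
  have e4 : vA 15 = 1 := by decide
  have e5 : vB 15 = 1 := by decide
  have e6' : vD 15 = 2 := by decide
  unfold Vals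
  rw [e0, e1, e2, e3, e4, e5, e6']
  norm_num [x0, e6eps] at h0 h1 h2 h3 h4 h5 h6 ⊢
  exact ⟨h0, h1, h2, h3, h4, h5, h6⟩

theorem vals_all (hT : IsTSystem e6 T) (n : ℕ) (hn : n ≤ 30) : Vals T ((n : ℤ) - 15) n := by
  have hu : ∀ m : ℕ, m ≤ 15 → Vals T m (15 + m) := by
    intro m
    induction m with
    | zero => intro _; exact_mod_cast vals_zero hT
    | succ m ih =>
      intro h
      have h1 := vals_up hT (by omega) (ih (by omega))
      push_cast
      exact h1
  have hd : ∀ m : ℕ, m ≤ 15 → Vals T (-(m : ℤ)) (15 - m) := by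
    intro m
    induction m with
    | zero => intro _; exact_mod_cast vals_zero hT
    | succ m ih =>
      intro h
      have h1 := ih (by omega)
      rw [show 15 - m = 15 - (m + 1) + 1 by omega,
        show -(m : ℤ) = -((m + 1 : ℕ) : ℤ) + 1 by push_cast; ring] at h1
      exact vals_down hT (by omega) h1
  rcases Nat.lt_or_ge n 15 with h | h
  · have h1 := hd (15 - n) (by omega)
    rw [show 15 - (15 - n) = n by omega] at h1
    rwa [show (n : ℤ) - 15 = -((15 - n : ℕ) : ℤ) by omega]
  · have h1 := hu (n - 15) (by omega)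
    rw [show 15 + (n - 15) = n by omega] at h1
    rwa [show (n : ℤ) - 15 = ((n - 15 : ℕ) : ℤ) by omega]

/-- Sixteen consecutive values at the centre are linearly independent as functions of time. -/
theorem indep (hT : IsTSystem e6 T) (r : ℕ → RatFun (Fin 7))
    (h : ∀ m : ℤ, ∑ j ∈ Finset.range 16, r j * T 3 (2 * (m + j)) = 0) :
    ∀ j < 16, r j = 0 := by
  by_contra hne
  push Not at hne
  obtain ⟨j0, hj0, hr⟩ := hne
  set M : Matrix (Fin 16) (Fin 16) (RatFun (Fin 7)) :=
    Matrix.of fun i j => T 3 (2 * (((i.val + j.val : ℕ) : ℤ) - 15)) with hM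
  have hv : ∀ i j, HasValue (M i j) x0 ((hankel.map (Int.castRingHom ℝ)) i j) := by
    intro i j
    have h1 := (vals_all hT (i.val + j.val) (by omega)).2.2.2.1
    exact h1
  have hdet := HasValue.det M _ hv
  have hdet0 : M.det = 0 := by
    rw [← Matrix.exists_mulVec_eq_zero_iff]
    refine ⟨fun j => r j.val, ?_, ?_⟩
    · intro h0
      exact hr (congrFun h0 ⟨j0, hj0⟩)
    · funext i
      have h1 := h ((i.val : ℤ) - 15)
      rw [← Fin.sum_univ_eq_sum_range
        (fun j => r j * T 3 (2 * ((i.val : ℤ) - 15 + j))) 16] at h1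
      rw [Pi.zero_apply, ← h1]
      simp only [Matrix.mulVec, dotProduct]
      apply Finset.sum_congr rfl
      intro j _
      rw [hM, Matrix.of_apply, mul_comm]
      congr 3
      push_cast
      ring
  rw [hdet0] at hdet
  have h1 := hdet.unique HasValue.zero
  rw [← RingHom.mapMatrix_apply, ← RingHom.map_det] at h1
  apply hankel_det_ne
  have h2 : ((hankel.det : ℤ) : ℝ) = 0 := h1
  exact_mod_cast h2

/-- The shift operator on sequences. -/
def shift (F : Type) [Field F] : (ℤ → F) →ₗ[F] (ℤ → F) where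
  toFun := fun s k => s (k + 1)
  map_add' := fun _ _ => rfl
  map_smul' := fun _ _ => rfl

theorem shift_pow {F : Type} [Field F] (s : ℤ → F) (n : ℕ) (k : ℤ) :
    ((shift F) ^ n) s k = s (k + n) := by
  induction n generalizing k with
  | zero => simp
  | succ n ih =>
    rw [pow_succ', Module.End.mul_apply]
    change ((shift F) ^ n) s (k + 1) = _
    rw [ih]
    congr 1
    push_cast
    ring

/-- The annihilating polynomial in the shift by two. -/
noncomputable def annPol {F : Type} [Field F] (κ : F) : F[X] :=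
  (X ^ 4 - C κ * X ^ 2 + 1) * (X ^ 12 - C κ * X ^ 6 + 1)

theorem annPol_expand {F : Type} [Field F] (κ : F) : annPol κ =
    X ^ 16 - C κ * X ^ 14 + X ^ 12 - C κ * X ^ 10 + C (κ ^ 2) * X ^ 8 - C κ * X ^ 6 + X ^ 4
      - C κ * X ^ 2 + 1 := by
  unfold annPol
  rw [C_pow]
  ring

theorem annPol_monic {F : Type} [Field F] (κ : F) : (annPol κ).Monic := by
  unfold annPol
  apply Monic.mul
  · monicity!
  · monicity!

theorem annPol_natDegree {F : Type} [Field F] (κ : F) : (annPol κ).natDegree = 16 := by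
  rw [annPol_expand]
  compute_degree!

/-- The coefficient K of a T-system. -/
noncomputable def kap (T : Fin 7 → ℤ → RatFun (Fin 7)) : RatFun (Fin 7) :=
  Sys.K (fun k => T 0 (2 * k)) (fun k => T 1 (2 * k)) (fun k => T 2 (2 * k))
    (fun k => T 3 (2 * k))

theorem ann_apply (hT : IsTSystem e6 T) :
    (aeval (shift (RatFun (Fin 7))) (annPol (kap T))) (fun k => T 3 (2 * k)) = 0 := by
  funext k
  have h := (e6_sys hT).main (k + 8)
  rw [annPol_expand]
  generalize hk : kap T ^ 2 = κ2
  simp only [map_add, map_sub, map_mul, map_pow, aeval_X, aeval_C, map_one,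
    LinearMap.add_apply, LinearMap.sub_apply, Module.End.mul_apply, Pi.add_apply, Pi.sub_apply,
    Module.End.one_apply, Pi.zero_apply, shift_pow, Module.algebraMap_end_apply, Pi.smul_apply,
    smul_eq_mul]
  simp only [show k + 8 + 8 = k + 16 by ring, show k + 8 + 6 = k + 14 by ring,
    show k + 8 + 4 = k + 12 by ring, show k + 8 + 2 = k + 10 by ring,
    show k + 8 - 2 = k + 6 by ring, show k + 8 - 4 = k + 4 by ring,
    show k + 8 - 6 = k + 2 by ring, show k + 8 - 8 = k by ring] at h
  push_cast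
  rw [← hk]
  unfold kap
  linear_combination h

end Pool.Agent.Lib_MP_89a37c
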