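import Pool.Agent.Lib_MP_89a37c.Final

/-! Specialisation of the recurrence polynomial and its non-real roots. -/

namespace Pool.Agent.Lib_MP_89a37c

open Polynomial

variable {V : Type}

/-- The coefficients of `p` have the coefficients of `q` as values. -/
def PV (p : (RatFun V)[X]) (x : V → ℝ) (q : ℝ[X]) : Prop :=
  ∀ n, HasValue (p.coeff n) x (q.coeff n)

section PVs

variable {x : V → ℝ} {p p' : (RatFun V)[X]} {q q' : ℝ[X]}

theorem PV.unique (h1 : PV p x q) (h2 : PV p x q') : q = q' := by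
  ext n
  exact (h1 n).unique (h2 n)

theorem PV.zero : PV (0 : (RatFun V)[X]) x 0 := by
  intro n
  rw [coeff_zero, coeff_zero]
  exact HasValue.zero

theorem PV.cst {a : RatFun V} {y : ℝ} (h : HasValue a x y) : PV (C a) x (C y) := by
  intro n
  rw [coeff_C, coeff_C]
  by_cases h0 : n = 0
  · rw [if_pos h0, if_pos h0]; exact h
  · rw [if_neg h0, if_neg h0]; exact HasValue.zero

theorem PV.xpow (m : ℕ) : PV (X ^ m : (RatFun V)[X]) x (X ^ m) := by
  intro n
  rw [coeff_X_pow, coeff_X_pow]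
  by_cases h0 : n = m
  · rw [if_pos h0, if_pos h0]; exact HasValue.one
  · rw [if_neg h0, if_neg h0]; exact HasValue.zero

theorem PV.add (h1 : PV p x q) (h2 : PV p' x q') : PV (p + p') x (q + q') := by
  intro n
  rw [coeff_add, coeff_add]
  exact (h1 n).add (h2 n)

theorem PV.sub (h1 : PV p x q) (h2 : PV p' x q') : PV (p - p') x (q - q') := by
  intro n
  rw [coeff_sub, coeff_sub]
  exact (h1 n).sub (h2 n)

theorem PV.mul (h1 : PV p x q) (h2 : PV p' x q') : PV (p * p') x (q * q') := by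
  intro n
  rw [coeff_mul, coeff_mul]
  apply HasValue.sum
  intro j _
  exact (h1 _).mul (h2 _)

theorem PV.sum (s : Finset ℕ) (P : ℕ → (RatFun V)[X]) (R : ℕ → ℝ[X])
    (h : ∀ j ∈ s, PV (P j) x (R j)) : PV (∑ j ∈ s, P j) x (∑ j ∈ s, R j) := by
  induction s using Finset.induction_on with
  | empty => simp only [Finset.sum_empty]; exact PV.zero
  | insert a s ha ih =>
    rw [Finset.sum_insert ha, Finset.sum_insert ha]
    exact (h a (Finset.mem_insert_self _ _)).add
      (ih fun j hj => h j (Finset.mem_insert_of_mem hj))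

end PVs

theorem PV.big {x : V → ℝ} {κ : RatFun V} {y : ℝ} (h : HasValue κ x y) :
    PV (bigPol κ) x (bigPol y) := by
  unfold bigPol
  have h1 : PV (1 : (RatFun V)[X]) x 1 := by
    have := PV.xpow (x := x) 0
    rwa [pow_zero, pow_zero] at this
  exact (((PV.xpow 8).sub ((PV.cst h).mul (PV.xpow 4))).add h1).mul
    (((PV.xpow 24).sub ((PV.cst h).mul (PV.xpow 12))).add h1)

/-- The characteristic polynomial of the specialised recurrence. -/
noncomputable def realPol (i N : ℕ) (y : ℕ → ℝ) : ℝ[X] :=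
  ∑ k ∈ Finset.range (N + 2), C ((-1) ^ k * y k) * X ^ (i * (N + 1 - k))

theorem PV.char {x : V → ℝ} {i N : ℕ} {J : ℕ → RatFun V} {y : ℕ → ℝ}
    (h : ∀ k ≤ N + 1, HasValue (J k) x (y k)) : PV (charPol i N J) x (realPol i N y) := by
  unfold charPol realPol
  apply PV.sum
  intro k hk
  rw [Finset.mem_range] at hk
  refine PV.mul (PV.cst ?_) (PV.xpow _)
  exact (HasValue.one.neg.pow k).mul (h k (by omega))

theorem charPol_coeff {i N : ℕ} {J : ℕ → RatFun V} (hi : 1 ≤ i) {k : ℕ} (hk : k ≤ N + 1) :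
    (charPol i N J).coeff (i * (N + 1 - k)) = (-1) ^ k * J k := by
  unfold charPol
  rw [finsetSum_coeff, Finset.sum_eq_single k]
  · rw [coeff_C_mul_X_pow, if_pos rfl]
  · intro j hj hne
    rw [Finset.mem_range] at hj
    rw [coeff_C_mul_X_pow, if_neg]
    intro h
    have h1 := Nat.eq_of_mul_eq_mul_left (by omega) h
    omega
  · intro h
    exact absurd (Finset.mem_range.mpr (by omega)) h

theorem exists_nonreal_cube (u : ℂ) (hu : u ≠ 0) : ∃ e : ℂ, e ^ 3 = u ∧ e.im ≠ 0 := by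
  obtain ⟨c, hc⟩ := IsAlgClosed.exists_pow_nat_eq u (n := 3) (by norm_num)
  by_cases h : c.im = 0
  · -- multiply by a primitive cube root of unity
    set w : ℂ := ⟨-1 / 2, Real.sqrt 3 / 2⟩ with hw
    have h3 : Real.sqrt 3 ^ 2 = 3 := Real.sq_sqrt (by norm_num)
    have hw3 : w ^ 3 = 1 := by
      apply Complex.ext
      · rw [hw]
        simp only [pow_succ, pow_zero, one_mul, Complex.mul_re, Complex.mul_im, Complex.one_re]
        linear_combination (3 / 8 : ℝ) * h3
      · rw [hw]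
        simp only [pow_succ, pow_zero, one_mul, Complex.mul_re, Complex.mul_im, Complex.one_im]
        linear_combination (-(1 / 8) * Real.sqrt 3 : ℝ) * h3
    refine ⟨c * w, ?_, ?_⟩
    · rw [mul_pow, hc, hw3, mul_one]
    · have hcre : c.re ≠ 0 := by
        intro h0
        have : c = 0 := Complex.ext h0 h
        rw [this] at hc
        exact hu (by rw [← hc]; norm_num)
      have him : (c * w).im = c.re * (Real.sqrt 3 / 2) := by
        rw [Complex.mul_im, h, zero_mul, add_zero]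
      rw [him]
      exact mul_ne_zero hcre (by positivity)
  · exact ⟨c, hc, h⟩

theorem exists_root (κ : ℝ) : ∃ ζ : ℂ, (ζ ^ 4).im ≠ 0 ∧
    (aeval ζ (bigPol κ) : ℂ) = 0 := by
  obtain ⟨s, hs⟩ := IsAlgClosed.exists_pow_nat_eq ((κ : ℂ) ^ 2 - 4) (n := 2) (by norm_num)
  set u : ℂ := ((κ : ℂ) + s) / 2 with hu
  have hu2 : u ^ 2 - κ * u + 1 = 0 := by
    rw [hu]
    linear_combination (1 / 4 : ℂ) * hs
  have hu0 : u ≠ 0 := by
    intro h
    rw [h] at hu2
    norm_num at hu2
  obtain ⟨e, he, him⟩ := exists_nonreal_cube u hu0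
  obtain ⟨ζ, hζ⟩ := IsAlgClosed.exists_pow_nat_eq e (n := 4) (by norm_num)
  refine ⟨ζ, by rw [hζ]; exact him, ?_⟩
  unfold bigPol
  rw [map_mul]
  have h2 : (aeval ζ (X ^ 24 - C κ * X ^ 12 + 1 : ℝ[X]) : ℂ) = 0 := by
    simp only [map_add, map_sub, map_mul, map_pow, aeval_X, aeval_C, map_one]
    have h12 : ζ ^ 12 = u := by
      rw [show (12 : ℕ) = 4 * 3 by norm_num, pow_mul, hζ, he]
    have h24 : ζ ^ 24 = u ^ 2 := by
      rw [show (24 : ℕ) = 12 * 2 by norm_num, pow_mul, h12]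
    rw [h12, h24]
    exact hu2
  rw [h2, mul_zero]

variable {T : Fin 7 → ℤ → RatFun (Fin 7)}

theorem kap_value (hT : IsTSystem e6 T) {x : Fin 7 → ℝ} (hx : ∀ v, 0 < x v) :
    ∃ y, HasValue (kap T) x y := by
  have hv : ∀ (v : Fin 7) (k : ℤ), e6eps v = 0 → Pos (T v (2 * k)) x := by
    intro v k h
    refine (tsystem_pos hT hx (2 * k)).1 v ?_
    change Even (2 * k + (e6eps v : ℤ))
    rw [h]
    exact ⟨k, by push_cast; ring⟩
  have hG : ∀ k : ℤ, Pos (Sys.G (fun k => T 0 (2 * k)) (fun k => T 1 (2 * k))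
      (fun k => T 2 (2 * k)) (fun k => T 3 (2 * k)) k) x := by
    intro k
    unfold Sys.G
    exact (((((hv 3 _ rfl).add (hv 3 _ rfl)).add (hv 0 _ rfl)).add (hv 1 _ rfl)).add
      (hv 2 _ rfl)).div (hv 3 _ rfl)
  obtain ⟨y, hy, h⟩ := hG 0
  obtain ⟨z, hz, h'⟩ := hG 1
  refine ⟨y * z - 2, ?_⟩
  unfold kap Sys.K
  have h2 : HasValue (2 : RatFun (Fin 7)) x 2 := by
    have := HasValue.one.add (HasValue.one (V := Fin 7) (x := x))
    rwa [one_add_one_eq_two, one_add_one_eq_two] at this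
  exact (h.mul h').sub h2

theorem kap_ne_zero (hT : IsTSystem e6 T) : kap T ≠ 0 := by
  have h14 := vals_all hT 14 (by norm_num)
  have h15 := vals_all hT 15 (by norm_num)
  have h16 := vals_all hT 16 (by norm_num)
  have h17 := vals_all hT 17 (by norm_num)
  norm_num at h14 h15 h16 h17
  obtain ⟨-, -, -, hC1, -, -, -⟩ := h14
  obtain ⟨ha2, hb2, hd2, hC2, -, -, -⟩ := h15
  obtain ⟨ha3, hb3, hd3, hC3, -, -, -⟩ := h16
  obtain ⟨-, -, -, hC4, -, -, -⟩ := h17
  have n1 : vC 14 = 5 := by decide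
  have n2 : vC 15 = 1 := by decide
  have n3 : vC 16 = 3 := by decide
  have n4 : vC 17 = 82 := by decide
  have n5 : va 15 = 1 := by decide
  have n6 : vb 15 = 1 := by decide
  have n7 : vd 15 = 1 := by decide
  have n8 : va 16 = 2 := by decide
  have n9 : vb 16 = 2 := by decide
  have n10 : vd 16 = 3 := by decide
  rw [n1] at hC1
  rw [n2] at hC2
  rw [n3] at hC3
  rw [n4] at hC4
  rw [n5] at ha2
  rw [n6] at hb2
  rw [n7] at hd2
  rw [n8] at ha3
  rw [n9] at hb3
  rw [n10] at hd3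
  have g0 := ((((hC3.add hC1).add ha2).add hb2).add hd2).div hC2 (by norm_num)
  have g1 := ((((hC4.add hC2).add ha3).add hb3).add hd3).div hC3 (by norm_num)
  have h2 : HasValue (2 : RatFun (Fin 7)) x0 2 := by
    have := HasValue.one.add (HasValue.one (V := Fin 7) (x := x0))
    rwa [one_add_one_eq_two, one_add_one_eq_two] at this
  have h3 := (g0.mul g1).sub h2
  have h4 : kap T ≠ 0 := by
    unfold kap Sys.K Sys.G
    norm_num at h3 ⊢
    exact h3.ne_zero (by norm_num)
  exact h4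

theorem i_dvd (hT : IsTSystem e6 T) {i N : ℕ} {J : ℕ → RatFun (Fin 7)}
    (h : charPol i N J = bigPol (kap T)) : i ∣ 4 := by
  have key : ∀ n : ℕ, (bigPol (kap T)).coeff n ≠ 0 → i ∣ n := by
    intro n hn
    rw [← h] at hn
    unfold charPol at hn
    rw [finsetSum_coeff] at hn
    obtain ⟨k, _, hk⟩ := Finset.exists_ne_zero_of_sum_ne_zero hn
    rw [coeff_C_mul_X_pow] at hk
    by_cases h0 : n = i * (N + 1 - k)
    · rw [h0]; exact Dvd.intro _ rfl
    · rw [if_neg h0] at hk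
      exact absurd rfl hk
  have h32 : i ∣ 32 := by
    apply key
    rw [← bigPol_natDegree (kap T), coeff_natDegree, (bigPol_monic _).leadingCoeff]
    exact one_ne_zero
  have h28 : i ∣ 28 := by
    apply key
    rw [bigPol_expand]
    have h1 : (X ^ 32 - C (kap T) * X ^ 28 + X ^ 24 - C (kap T) * X ^ 20
      + C (kap T ^ 2) * X ^ 16 - C (kap T) * X ^ 12 + X ^ 8
      - C (kap T) * X ^ 4 + 1 : (RatFun (Fin 7))[X]).coeff 28 = - kap T := by
      simp only [coeff_add, coeff_sub, coeff_X_pow, coeff_C_mul_X_pow, coeff_one]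
      norm_num
    rw [h1]
    exact neg_ne_zero.mpr (kap_ne_zero hT)
  have h4 := Nat.dvd_sub h32 h28
  norm_num at h4
  exact h4

theorem main_roots (hT : IsTSystem e6 T) {i N : ℕ} {J : ℕ → RatFun (Fin 7)}
    (h : IsMinimalRecurrence e6 T 3 i N J) {x : Fin 7 → ℝ} (hx : ∀ v, 0 < x v) :
    ∃ y : ℕ → ℝ, (∀ k ≤ N + 1, HasValue (J k) x (y k)) ∧
      ∃ z : ℂ, IsRoot N y z ∧ z.im ≠ 0 := by
  have hc := charPol_eq hT h
  obtain ⟨κ, hκ⟩ := kap_value hT hx
  have hbig := PV.big hκ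
  have hy : ∀ k ≤ N + 1, HasValue (J k) x
      ((-1) ^ k * (bigPol κ).coeff (i * (N + 1 - k))) := by
    intro k hk
    have h1 := hbig (i * (N + 1 - k))
    rw [← hc, charPol_coeff h.pos hk] at h1
    have h2 := (HasValue.one.neg.pow k).mul h1
    rw [← mul_assoc, ← mul_pow, neg_one_mul, neg_neg, one_pow, one_mul] at h2
    exact h2
  refine ⟨_, hy, ?_⟩
  have hpv := PV.char (i := i) hy
  rw [hc] at hpv
  have heq := hbig.unique hpv
  obtain ⟨ζ, him, hζ⟩ := exists_root κ
  obtain ⟨m, hm⟩ := i_dvd hT hc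
  refine ⟨ζ ^ i, ?_, ?_⟩
  · rw [heq] at hζ
    unfold realPol at hζ
    rw [map_sum] at hζ
    unfold IsRoot
    rw [← hζ]
    apply Finset.sum_congr rfl
    intro k _
    rw [map_mul, map_pow, aeval_X, aeval_C, ← pow_mul]
    congr 1
    simp only [map_mul, map_pow, map_neg, map_one, Complex.coe_algebraMap]
    push_cast
    rfl
  · intro h0
    apply him
    rw [hm, pow_mul]
    have h1 : ζ ^ i = ((ζ ^ i).re : ℂ) := Complex.ext (by simp) (by simp [h0])
    rw [h1, ← Complex.ofReal_pow]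
    exact Complex.ofReal_im _

end Pool.Agent.Lib_MP_89a37c
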