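import Pool.Agent.Lib_MP_89a37c.Value

/-! Existence of the T-system and positivity of its values. -/

namespace Pool.Agent.Lib_MP_89a37c

open Polynomial

variable {V : Type} [Fintype V] (Q : BQuiver V)

theorem BQuiver.parity (u v : V) (h : Q.arr u v ∨ Q.arr v u) (t : ℤ) :
    Even (t + Q.eps v) ↔ ¬ Even (t + Q.eps u) := by
  have h1 := Q.eps_le u
  have h2 := Q.eps_le v
  have h3 : Q.eps u ≠ Q.eps v := by
    rcases h with h | h
    · exact Q.bip u v h
    · exact (Q.bip v u h).symm
  have h4 : (Q.eps u = 0 ∧ Q.eps v = 1) ∨ (Q.eps u = 1 ∧ Q.eps v = 0) := by omega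
  rcases h4 with ⟨h4, h5⟩ | ⟨h4, h5⟩
  · rw [h4, h5]
    constructor
    · rintro ⟨a, ha⟩ ⟨b, hb⟩
      push_cast at ha hb
      omega
    · intro h
      rw [Int.not_even_iff_odd] at h
      obtain ⟨b, hb⟩ := h
      refine ⟨b + 1, ?_⟩
      push_cast at hb ⊢
      omega
  · rw [h4, h5]
    constructor
    · rintro ⟨a, ha⟩ ⟨b, hb⟩
      push_cast at ha hb
      omega
    · intro h
      rw [Int.not_even_iff_odd] at h
      obtain ⟨b, hb⟩ := h
      refine ⟨b, ?_⟩
      push_cast at hb ⊢
      omega

open Classical in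
/-- Mutation at all vertices of a parity class. -/
noncomputable def mu (e : ℤ) (s : V → RatFun V) : V → RatFun V := fun v =>
  if Even (e + Q.eps v) then
    ((∏ u with Q.arr u v, s u) + ∏ w with Q.arr v w, s w) / s v
  else s v

variable {Q}

theorem mu_of_even {e : ℤ} {s : V → RatFun V} {v : V} (h : Even (e + Q.eps v)) :
    mu Q e s v = (open Classical in
      ((∏ u with Q.arr u v, s u) + ∏ w with Q.arr v w, s w) / s v) := by
  unfold mu
  rw [if_pos h]

theorem mu_of_odd {e : ℤ} {s : V → RatFun V} {v : V} (h : ¬ Even (e + Q.eps v)) :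
    mu Q e s v = s v := by
  unfold mu
  rw [if_neg h]

theorem mu_pos {x : V → ℝ} {e : ℤ} {s : V → RatFun V} (h : ∀ v, Pos (s v) x) (v : V) :
    Pos (mu Q e s v) x := by
  classical
  by_cases he : Even (e + Q.eps v)
  · rw [mu_of_even he]
    exact ((Pos.prod _ _ fun j _ => h j).add (Pos.prod _ _ fun j _ => h j)).div (h v)
  · rw [mu_of_odd he]
    exact h v

theorem prod_in {e : ℤ} {s : V → RatFun V} {v : V} (h : Even (e + Q.eps v)) :
    (open Classical in ∏ u with Q.arr u v, mu Q e s u)
      = (open Classical in ∏ u with Q.arr u v, s u) := by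
  classical
  apply Finset.prod_congr rfl
  intro u hu
  rw [Finset.mem_filter] at hu
  exact mu_of_odd ((Q.parity u v (Or.inl hu.2) e).mp h)

theorem prod_out {e : ℤ} {s : V → RatFun V} {v : V} (h : Even (e + Q.eps v)) :
    (open Classical in ∏ w with Q.arr v w, mu Q e s w)
      = (open Classical in ∏ w with Q.arr v w, s w) := by
  classical
  apply Finset.prod_congr rfl
  intro u hu
  rw [Finset.mem_filter] at hu
  exact mu_of_odd ((Q.parity u v (Or.inr hu.2) e).mp h)

theorem mu_mu {x : V → ℝ} {e : ℤ} {s : V → RatFun V} (h : ∀ v, Pos (s v) x) :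
    mu Q e (mu Q e s) = s := by
  classical
  funext v
  by_cases he : Even (e + Q.eps v)
  · rw [mu_of_even he, prod_in he, prod_out he, mu_of_even he]
    have h1 : ((∏ u with Q.arr u v, s u) + ∏ w with Q.arr v w, s w) ≠ 0 :=
      ((Pos.prod _ _ fun j _ => h j).add (Pos.prod _ _ fun j _ => h j)).ne_zero
    have h2 : s v ≠ 0 := (h v).ne_zero
    rw [div_div_eq_mul_div, mul_div_assoc, mul_comm, div_mul_cancel₀ _ h1]
  · rw [mu_of_odd he, mu_of_odd he]

variable (Q)

/-- The initial slice. -/
noncomputable def slice0 (V : Type) : V → RatFun V := fun v =>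
  algebraMap (MvPolynomial V ℚ) (RatFun V) (MvPolynomial.X v)

/-- Slices forwards in time. -/
noncomputable def fwd : ℕ → V → RatFun V
  | 0 => slice0 V
  | n + 1 => mu Q n (fwd n)

/-- Slices backwards in time. -/
noncomputable def bwd : ℕ → V → RatFun V
  | 0 => slice0 V
  | n + 1 => mu Q (Int.negSucc n) (bwd n)

/-- All slices. -/
noncomputable def slice : ℤ → V → RatFun V
  | Int.ofNat n => fwd Q n
  | Int.negSucc n => bwd Q (n + 1)

variable {Q}

theorem fwd_pos {x : V → ℝ} (hx : ∀ v, 0 < x v) (n : ℕ) : ∀ v, Pos (fwd Q n v) x := by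
  induction n with
  | zero => intro v; exact ⟨x v, hx v, HasValue.var v⟩
  | succ n ih => exact mu_pos ih

theorem bwd_pos {x : V → ℝ} (hx : ∀ v, 0 < x v) (n : ℕ) : ∀ v, Pos (bwd Q n v) x := by
  induction n with
  | zero => intro v; exact ⟨x v, hx v, HasValue.var v⟩
  | succ n ih => exact mu_pos ih

theorem slice_succ (t : ℤ) : slice Q (t + 1) = mu Q t (slice Q t) := by
  match t with
  | Int.ofNat n => rfl
  | Int.negSucc 0 =>
    change fwd Q 0 = mu Q (Int.negSucc 0) (mu Q (Int.negSucc 0) (bwd Q 0))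
    rw [mu_mu (x := fun _ => 1) (bwd_pos (fun _ => one_pos) 0)]
    rfl
  | Int.negSucc (n + 1) =>
    change bwd Q (n + 1) = mu Q (Int.negSucc (n + 1)) (mu Q (Int.negSucc (n + 1)) (bwd Q (n + 1)))
    rw [mu_mu (x := fun _ => 1) (bwd_pos (fun _ => one_pos) (n + 1))]

theorem slice_pos {x : V → ℝ} (hx : ∀ v, 0 < x v) (t : ℤ) (v : V) : Pos (slice Q t v) x := by
  match t with
  | Int.ofNat n => exact fwd_pos hx n v
  | Int.negSucc n => exact bwd_pos hx (n + 1) v

variable (Q)

/-- The T-system of a quiver exists. -/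
theorem exists_tsystem : ∃ T : V → ℤ → RatFun V, IsTSystem Q T := by
  classical
  refine ⟨fun v t => slice Q t v, ?_, ?_⟩
  · intro v
    have h := Q.eps_le v
    have h' : Q.eps v = 0 ∨ Q.eps v = 1 := by omega
    change slice Q (Q.eps v) v = _
    rcases h' with h' | h'
    · rw [h']; rfl
    · have h1 := congrFun (slice_succ (Q := Q) 0) v
      rw [h']
      rw [mu_of_odd (by rw [h']; decide)] at h1
      exact h1
  · intro v t ht
    have hodd : ¬ Even (t + Q.eps v) := by
      rintro ⟨b, hb⟩
      obtain ⟨a, ha⟩ := ht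
      omega
    have heven : Even (t - 1 + Q.eps v) := by
      obtain ⟨a, ha⟩ := ht
      exact ⟨a - 1, by omega⟩
    have h1 := slice_succ (Q := Q) t
    have h2 := slice_succ (Q := Q) (t - 1)
    rw [show t - 1 + 1 = t by ring] at h2
    have h3 : slice Q (t + 1) v = slice Q t v := by
      rw [h1, mu_of_odd hodd]
    change slice Q (t + 1) v * slice Q (t - 1) v = (∏ u with Q.arr u v, slice Q t u)
      + ∏ w with Q.arr v w, slice Q t w
    rw [h3, h2, prod_in heven, prod_out heven, mu_of_even heven]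
    exact div_mul_cancel₀ _ (slice_pos (x := fun _ => 1) (fun _ => one_pos) _ _).ne_zero

variable {Q}

theorem tsystem_pos {T : V → ℤ → RatFun V} (hT : IsTSystem Q T) {x : V → ℝ}
    (hx : ∀ v, 0 < x v) (t : ℤ) :
    (∀ v, Even (t + Q.eps v) → Pos (T v t) x) ∧
      (∀ v, Even (t + 1 + Q.eps v) → Pos (T v (t + 1)) x) := by
  classical
  have key : ∀ (t : ℤ) (v : V), Even (t + 1 + Q.eps v) →
      (∀ w, Even (t + Q.eps w) → Pos (T w t) x) →
      Pos (T v (t + 1) * T v (t - 1)) x := by
    intro t v ht h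
    rw [hT.step v t ht]
    apply Pos.add
    · apply Pos.prod
      intro j hj
      rw [Finset.mem_filter] at hj
      apply h
      have h1 := (Q.parity j v (Or.inl hj.2) (t + 1)).mp ht
      rw [Int.not_even_iff_odd] at h1
      obtain ⟨b, hb⟩ := h1
      exact ⟨b, by omega⟩
    · apply Pos.prod
      intro j hj
      rw [Finset.mem_filter] at hj
      apply h
      have h1 := (Q.parity j v (Or.inr hj.2) (t + 1)).mp ht
      rw [Int.not_even_iff_odd] at h1
      obtain ⟨b, hb⟩ := h1
      exact ⟨b, by omega⟩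
  induction t using Int.induction_on with
  | zero =>
    constructor
    · intro v hv
      have h := Q.eps_le v
      have h' : Q.eps v = 0 := by
        obtain ⟨a, ha⟩ := hv
        omega
      have h1 := hT.init v
      rw [h'] at h1
      push_cast at h1
      rw [h1]
      exact ⟨x v, hx v, HasValue.var v⟩
    · intro v hv
      have h := Q.eps_le v
      have h' : Q.eps v = 1 := by
        obtain ⟨a, ha⟩ := hv
        omega
      have h1 := hT.init v
      rw [h'] at h1
      push_cast at h1
      rw [zero_add, h1]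
      exact ⟨x v, hx v, HasValue.var v⟩
  | succ i ih =>
    refine ⟨ih.2, ?_⟩
    intro v hv
    have h1 := key (i + 1) v hv ih.2
    rw [show (i : ℤ) + 1 - 1 = i by ring] at h1
    have h2 : Pos (T v i) x := by
      apply ih.1
      obtain ⟨a, ha⟩ := hv
      exact ⟨a - 1, by omega⟩
    have h3 := h1.div h2
    rwa [mul_div_assoc, div_self h2.ne_zero, mul_one] at h3
  | pred i ih =>
    constructor
    · intro v hv
      have hv' : Even (-(i : ℤ) + 1 + Q.eps v) := by
        obtain ⟨a, ha⟩ := hv
        exact ⟨a + 1, by omega⟩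
      have h1 := key (-i) v hv' ih.1
      have h2 : Pos (T v (-i + 1)) x := ih.2 v hv'
      have h3 := h1.div h2
      rwa [mul_comm, mul_div_assoc, div_self h2.ne_zero, mul_one] at h3
    · intro v hv
      rw [show -(i : ℤ) - 1 + 1 = -i by ring] at hv ⊢
      exact ih.1 v hv

end Pool.Agent.Lib_MP_89a37c
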