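import Pool.Agent.Lib_MP_89a37c.Defs

/-! Values of rational functions at real points. -/

namespace Pool.Agent.Lib_MP_89a37c

open Polynomial

variable {V : Type} {x : V → ℝ} {f g : RatFun V} {y z : ℝ}

local instance : IsDomain (MvPolynomial V ℚ) := inferInstance

theorem algMap_ne {q : MvPolynomial V ℚ} (h : MvPolynomial.aeval x q ≠ 0) :
    algebraMap (MvPolynomial V ℚ) (RatFun V) q ≠ 0 := by
  intro h0
  have h1 : q = 0 := by
    apply IsFractionRing.injective (MvPolynomial V ℚ) (RatFun V)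
    rw [h0, map_zero]
  exact h (by rw [h1, map_zero])

theorem HasValue.unique (h1 : HasValue f x y) (h2 : HasValue f x z) : y = z := by
  obtain ⟨p, q, hq, hf, hy⟩ := h1
  obtain ⟨p', q', hq', hf', hz⟩ := h2
  have h : p * q' = p' * q := by
    apply IsFractionRing.injective (MvPolynomial V ℚ) (RatFun V)
    rw [map_mul, map_mul, ← hf, ← hf']
    ring
  have h' := congrArg (MvPolynomial.aeval x) h
  rw [map_mul, map_mul, ← hy, ← hz] at h'
  have h'' : (y - z) * (MvPolynomial.aeval x q * MvPolynomial.aeval x q') = 0 := by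
    linear_combination h'
  rcases mul_eq_zero.mp h'' with h3 | h3
  · linarith
  · exact absurd h3 (mul_ne_zero hq hq')

theorem HasValue.algMap (p : MvPolynomial V ℚ) :
    HasValue (algebraMap (MvPolynomial V ℚ) (RatFun V) p) x (MvPolynomial.aeval x p) := by
  refine ⟨p, 1, ?_, ?_, ?_⟩
  · rw [map_one]; exact one_ne_zero
  · rw [map_one, mul_one]
  · rw [map_one, mul_one]

theorem HasValue.var (v : V) :
    HasValue (algebraMap (MvPolynomial V ℚ) (RatFun V) (MvPolynomial.X v)) x (x v) := by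
  have h := HasValue.algMap (x := x) (MvPolynomial.X v)
  rwa [MvPolynomial.aeval_X] at h

theorem HasValue.zero : HasValue (0 : RatFun V) x 0 := by
  have h := HasValue.algMap (x := x) (0 : MvPolynomial V ℚ)
  rwa [map_zero, map_zero] at h

theorem HasValue.one : HasValue (1 : RatFun V) x 1 := by
  have h := HasValue.algMap (x := x) (1 : MvPolynomial V ℚ)
  rwa [map_one, map_one] at h

theorem HasValue.mul (h1 : HasValue f x y) (h2 : HasValue g x z) :
    HasValue (f * g) x (y * z) := by
  obtain ⟨p, q, hq, hf, hy⟩ := h1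
  obtain ⟨p', q', hq', hf', hz⟩ := h2
  refine ⟨p * p', q * q', ?_, ?_, ?_⟩
  · rw [map_mul]; exact mul_ne_zero hq hq'
  · rw [map_mul, map_mul, ← hf, ← hf']; ring
  · rw [map_mul, map_mul, ← hy, ← hz]; ring

theorem HasValue.add (h1 : HasValue f x y) (h2 : HasValue g x z) :
    HasValue (f + g) x (y + z) := by
  obtain ⟨p, q, hq, hf, hy⟩ := h1
  obtain ⟨p', q', hq', hf', hz⟩ := h2
  refine ⟨p * q' + p' * q, q * q', ?_, ?_, ?_⟩
  · rw [map_mul]; exact mul_ne_zero hq hq'
  · rw [map_mul, map_add, map_mul, map_mul, ← hf, ← hf']; ring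
  · rw [map_mul, map_add, map_mul, map_mul, ← hy, ← hz]; ring

theorem HasValue.neg (h1 : HasValue f x y) : HasValue (-f) x (-y) := by
  obtain ⟨p, q, hq, hf, hy⟩ := h1
  refine ⟨-p, q, hq, ?_, ?_⟩
  · rw [map_neg, ← hf]; ring
  · rw [map_neg, ← hy]; ring

theorem HasValue.sub (h1 : HasValue f x y) (h2 : HasValue g x z) :
    HasValue (f - g) x (y - z) := by
  have h := h1.add h2.neg
  rwa [← sub_eq_add_neg, ← sub_eq_add_neg] at h

theorem HasValue.pow (h1 : HasValue f x y) (n : ℕ) : HasValue (f ^ n) x (y ^ n) := by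
  induction n with
  | zero => rw [pow_zero, pow_zero]; exact HasValue.one
  | succ n ih => rw [pow_succ, pow_succ]; exact ih.mul h1

theorem HasValue.div (h1 : HasValue f x y) (h2 : HasValue g x z) (hz : z ≠ 0) :
    HasValue (f / g) x (y / z) := by
  obtain ⟨p, q, hq, hf, hy⟩ := h1
  obtain ⟨p', q', hq', hf', hz'⟩ := h2
  have hp' : MvPolynomial.aeval x p' ≠ 0 := by
    rw [← hz']; exact mul_ne_zero hz hq'
  have hg : g ≠ 0 := by
    intro h0
    rw [h0, zero_mul] at hf'
    exact algMap_ne hp' hf'.symm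
  refine ⟨p * q', q * p', ?_, ?_, ?_⟩
  · rw [map_mul]; exact mul_ne_zero hq hp'
  · rw [map_mul, map_mul, ← hf, ← hf']
    field_simp
  · rw [map_mul, map_mul, ← hy, ← hz']
    field_simp

theorem HasValue.ne_zero (h1 : HasValue f x y) (hy : y ≠ 0) : f ≠ 0 := by
  intro h0
  rw [h0] at h1
  exact hy (h1.unique HasValue.zero)

theorem HasValue.sum {ι : Type} (s : Finset ι) (F : ι → RatFun V) (Y : ι → ℝ)
    (h : ∀ j ∈ s, HasValue (F j) x (Y j)) : HasValue (∑ j ∈ s, F j) x (∑ j ∈ s, Y j) := by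
  classical
  induction s using Finset.induction_on with
  | empty => simp only [Finset.sum_empty]; exact HasValue.zero
  | insert a s ha ih =>
    rw [Finset.sum_insert ha, Finset.sum_insert ha]
    exact (h a (Finset.mem_insert_self _ _)).add
      (ih fun j hj => h j (Finset.mem_insert_of_mem hj))

theorem HasValue.prod {ι : Type} (s : Finset ι) (F : ι → RatFun V) (Y : ι → ℝ)
    (h : ∀ j ∈ s, HasValue (F j) x (Y j)) : HasValue (∏ j ∈ s, F j) x (∏ j ∈ s, Y j) := by
  classical
  induction s using Finset.induction_on with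
  | empty => simp only [Finset.prod_empty]; exact HasValue.one
  | insert a s ha ih =>
    rw [Finset.prod_insert ha, Finset.prod_insert ha]
    exact (h a (Finset.mem_insert_self _ _)).mul
      (ih fun j hj => h j (Finset.mem_insert_of_mem hj))

theorem HasValue.det {n : ℕ} (M : Matrix (Fin n) (Fin n) (RatFun V))
    (Y : Matrix (Fin n) (Fin n) ℝ) (h : ∀ i j, HasValue (M i j) x (Y i j)) :
    HasValue M.det x Y.det := by
  rw [Matrix.det_apply', Matrix.det_apply']
  apply HasValue.sum
  intro σ _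
  apply HasValue.mul
  · rcases Int.units_eq_one_or (Equiv.Perm.sign σ) with h1 | h1
    · rw [h1]; simpa using HasValue.one
    · rw [h1]; simpa using HasValue.one.neg
  · apply HasValue.prod
    intro j _
    exact h _ _

/-- `f` has a positive value at `x`. -/
def Pos (f : RatFun V) (x : V → ℝ) : Prop := ∃ y, 0 < y ∧ HasValue f x y

theorem Pos.mul (h1 : Pos f x) (h2 : Pos g x) : Pos (f * g) x := by
  obtain ⟨y, hy, h⟩ := h1
  obtain ⟨z, hz, h'⟩ := h2
  exact ⟨_, mul_pos hy hz, h.mul h'⟩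

theorem Pos.add (h1 : Pos f x) (h2 : Pos g x) : Pos (f + g) x := by
  obtain ⟨y, hy, h⟩ := h1
  obtain ⟨z, hz, h'⟩ := h2
  exact ⟨_, add_pos hy hz, h.add h'⟩

theorem Pos.div (h1 : Pos f x) (h2 : Pos g x) : Pos (f / g) x := by
  obtain ⟨y, hy, h⟩ := h1
  obtain ⟨z, hz, h'⟩ := h2
  exact ⟨_, div_pos hy hz, h.div h' hz.ne'⟩

theorem Pos.prod {ι : Type} (s : Finset ι) (F : ι → RatFun V)
    (h : ∀ j ∈ s, Pos (F j) x) : Pos (∏ j ∈ s, F j) x := by
  classical
  induction s using Finset.induction_on with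
  | empty => simp only [Finset.prod_empty]; exact ⟨1, one_pos, HasValue.one⟩
  | insert a s ha ih =>
    rw [Finset.prod_insert ha]
    exact (h a (Finset.mem_insert_self _ _)).mul
      (ih fun j hj => h j (Finset.mem_insert_of_mem hj))

theorem Pos.ne_zero (h1 : Pos f x) : f ≠ 0 := by
  obtain ⟨y, hy, h⟩ := h1
  exact h.ne_zero hy.ne'

end Pool.Agent.Lib_MP_89a37c
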